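import Pool.Agent.Lib.MP_a57f33_nt.BZ.Defs
import Pool.Agent.Lib.MP_a57f33_nt.RT.Defs

/-!
# Project RG (MP_a57f33_nt): double shuffle and rigid local systems, definitions
-/

namespace Pool.Agent.MP_a57f33_nt.RG

open Pool.Agent.MP_a57f33_nt

/-! ### the potential of `ψ` and its gradient -/

/-- The gradient, in weight `N` and for the letter `i`, of the cyclic potential `k`. -/
def phi {K S : Type} [CommRing K] [Ring S] [Algebra K S] (k : List Bool → K) (N : ℕ) (i : Bool)
    (a b : S) : S :=
  BZ.SW N fun w => k (i :: w) • BZ.ev a b w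

/-- `G(M) = φ₀(e M, f M) e + φ₁(e M, f M) f`. -/
def G {K S : Type} [CommRing K] [Ring S] [Algebra K S] (k : List Bool → K) (N : ℕ)
    (e f M : S) : S :=
  phi k N false (e * M) (f * M) * e + phi k N true (e * M) (f * M) * f

/-- Sum over the letters of a word of the value at the word with this letter doubled. -/
def dbl {M : Type} [AddCommMonoid M] : List Bool → (List Bool → M) → M
  | [], _ => 0
  | a :: w, f => f (a :: a :: w) + dbl w (fun t => f (a :: t))

/-- The properties in weight `N` of the potential of an element of `dm₀` whose part of depth one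
vanishes. -/
structure Pot {K : Type} [Field K] (k : List Bool → K) (N : ℕ) : Prop where
  cyc : ∀ (a : Bool) (w : List Bool), w.length = N → k (w ++ [a]) = k (a :: w)
  dbl : ∀ C : List Bool, C.length = N → RG.dbl C k = 0
  tw : ∀ (S : Type) [Ring S] [Algebra K S] (i : Bool) (a b : S) (x y : K),
    phi k N i (a + algebraMap K S x) (b + algebraMap K S y) = phi k N i a b
  tr : ∀ (S : Type) [Ring S] [Algebra K S] (τ : S →ₗ[K] K), (∀ x y, τ (x * y) = τ (y * x)) →
    ∀ (i : Bool) (a b : S), τ (phi k N i a b) = 0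
  one : ∀ i : Bool, k [i] = 0

/-! ### endomorphisms -/

section lin

variable {K : Type} [Field K]

/-- The trace of `m` on the subspace `U` is zero (if `U` is invariant). -/
def TrZ {V : Type} [AddCommGroup V] [Module K V] (m : Module.End K V) (U : Submodule K V) : Prop :=
  ∀ h : ∀ x ∈ U, m x ∈ U, LinearMap.trace K U (m.restrict h) = 0

/-- `m` commutes with `a` and has the trace zero on the images of all polynomials in `a`. -/
def Cnd {V : Type} [AddCommGroup V] [Module K V] (a m : Module.End K V) : Prop :=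
  m * a = a * m ∧ ∀ q : Polynomial K, TrZ m (LinearMap.range (Polynomial.aeval a q))

/-- The potential `k` acts on the pair `(a, b)` by local factors of trace zero. -/
def Tri {V : Type} [AddCommGroup V] [Module K V] (k : List Bool → K) (N : ℕ)
    (a b : Module.End K V) : Prop :=
  ∃ m0 m1 m2 : Module.End K V, Cnd a m0 ∧ Cnd b m1 ∧ Cnd (a + b) m2 ∧
    phi k N false a b = m0 - m2 ∧ phi k N true a b = m1 - m2

/-- No common invariant subspace. -/
def Irr {V : Type} [AddCommGroup V] [Module K V] (a b : Module.End K V) : Prop :=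
  ∀ U : Submodule K V, (∀ x ∈ U, a x ∈ U) → (∀ x ∈ U, b x ∈ U) → U = ⊥ ∨ U = ⊤

/-- The dimension of the centraliser. -/
noncomputable def zd {S : Type} [Ring S] [Algebra K S] (a : S) : ℕ :=
  Module.finrank K (Subalgebra.centralizer K ({a} : Set S))

/-- The linear data of one step of the algorithm of Katz. -/
structure Lk (K V U0 U1 W : Type) [Field K] [AddCommGroup V] [Module K V] [AddCommGroup U0]
    [Module K U0] [AddCommGroup U1] [Module K U1] [AddCommGroup W] [Module K W] where
  p0 : U0 →ₗ[K] V
  p1 : U1 →ₗ[K] V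
  r0 : V →ₗ[K] U0
  r1 : V →ₗ[K] U1
  al : W →ₗ[K] U0 × U1
  be : U0 × U1 →ₗ[K] W
  x : K
  hp0 : Function.Injective p0
  hp1 : Function.Injective p1
  hr0 : Function.Surjective r0
  hr1 : Function.Surjective r1
  hal : Function.Injective al
  hbe : Function.Surjective be
  hp : Function.Surjective (p0.coprod p1)
  hr : Function.Injective (r0.prod r1)
  hj0 : Function.Injective (be ∘ₗ LinearMap.inl K U0 U1)
  hj1 : Function.Injective (be ∘ₗ LinearMap.inr K U0 U1)
  hs0 : Function.Surjective (LinearMap.fst K U0 U1 ∘ₗ al)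
  hs1 : Function.Surjective (LinearMap.snd K U0 U1 ∘ₗ al)
  eq : al ∘ₗ be = (r0.prod r1) ∘ₗ (p0.coprod p1) + x • LinearMap.id

namespace Lk

variable {V U0 U1 W : Type} [AddCommGroup V] [Module K V] [AddCommGroup U0]
    [Module K U0] [AddCommGroup U1] [Module K U1] [AddCommGroup W] [Module K W]
    (L : Lk K V U0 U1 W)

/-- The pair on `V`. -/
def a0 : Module.End K V := L.p0 ∘ₗ L.r0

/-- The pair on `V`. -/
def a1 : Module.End K V := L.p1 ∘ₗ L.r1

/-- The pair on `W`. -/
def b0 : Module.End K W := L.be ∘ₗ LinearMap.inl K U0 U1 ∘ₗ LinearMap.fst K U0 U1 ∘ₗ L.al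

/-- The pair on `W`. -/
def b1 : Module.End K W := L.be ∘ₗ LinearMap.inr K U0 U1 ∘ₗ LinearMap.snd K U0 U1 ∘ₗ L.al

end Lk

end lin

/-! ### flows without depth one part -/

/-- `P` is invariant under the flows of the elements of `dm₀` without part of depth one. -/
def InvtD {k : Type} [CommRing k] [Algebra ℚ k] (P : (List Bool → k) → Prop) : Prop :=
  ∀ (γ : ℕ → k) (Z : List Bool → k) (φ : QX) (n : ℕ) (T : Module.End ℚ QX) (c : k),
    Cyc.RegDS γ Z → φ ∈ dm0 → IsHom n φ → 3 ≤ n →
    coeff φ (List.replicate (n - 1) false ++ [true]) = 0 → RT.IsAdj (RT.actL φ) T → P Z →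
    P (fun w => (RT.expP List.length T Z w).eval c)

end Pool.Agent.MP_a57f33_nt.RG
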