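import Pool.Agent.Lib.MP_a57f33_nt.RG.P.zd
import Pool.Agent.Lib.MP_a57f33_nt.RG.P.zsh
import Pool.Agent.Lib.MP_a57f33_nt.RG.P.mx
import Pool.Agent.Lib.MP_a57f33_nt.RG.P.ir
import Pool.Agent.Lib.MP_a57f33_nt.RG.P.sco
import Pool.Agent.Lib.MP_a57f33_nt.RG.P.lk
import Pool.Agent.Lib.MP_a57f33_nt.RG.P.irb
import Pool.Agent.Lib.MP_a57f33_nt.RG.P.dmw
import Pool.Agent.Lib.MP_a57f33_nt.RG.P.zdb
import Pool.Agent.Lib.MP_a57f33_nt.RG.P.kac
import Pool.Agent.Lib.MP_a57f33_nt.RG.P.swy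
import Pool.Agent.Lib.MP_a57f33_nt.RG.P.tws
import Pool.Agent.Lib.MP_a57f33_nt.RG.P.stz
import Pool.Agent.Lib.MP_a57f33_nt.RG.P.stf
import Pool.Agent.Lib.MP_a57f33_nt.RG.P.trf
import Pool.Agent.Lib.MP_a57f33_nt.RG.P.chs
import Pool.Agent.Lib.MP_a57f33_nt.RG.P.evb
import Pool.Agent.Lib.MP_a57f33_nt.RG.P.efb
import Pool.Agent.Lib.MP_a57f33_nt.RG.P.sev
import Pool.Agent.Lib.MP_a57f33_nt.RG.P.dua
import Pool.Agent.Lib.MP_a57f33_nt.RG.P.dul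
import Pool.Agent.Lib.MP_a57f33_nt.RG.P.gi2
import Pool.Agent.Lib.MP_a57f33_nt.RG.P.gm3
import Pool.Agent.Lib.MP_a57f33_nt.RG.P.dmf
import Pool.Agent.Lib.MP_a57f33_nt.RG.P.mkd

/-!
# The Gamma product formula for rigid local systems: assembly
-/

namespace Pool.Agent.MP_a57f33_nt.RG

open Pool.Agent.MP_a57f33_nt

theorem gam_kac : S_kac :=
  p_kac p_zsh (p_mx p_zd p_zsh) (p_sco p_ir) (p_lk p_ir) p_irb p_dmw (p_zdb p_zd p_zsh)

theorem gam_trf : S_trf := p_trf p_tws (p_stz p_swy) p_stf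

/-- A solution of the regularised double shuffle relations satisfies the transfer rule. -/
theorem gam_TR (K : Type) {k : Type} [Field K] [CharZero K] [CommRing k] [Algebra K k]
    {γ : ℕ → k} {Z : List Bool → k} (h : Cyc.RegDS γ Z) : TR K γ Z :=
  ⟨h.one, fun V _ _ a b v η x y => p_tws K k V γ Z h a b v η x y,
    fun V U0 U1 W _ _ _ _ _ _ _ _ L u ζ lam nu h0 h1 =>
      gam_trf K k V U0 U1 W L γ Z h u ζ lam nu h0 h1⟩

theorem gam_gi2 : S_gi2 := p_gi2 gam_kac p_chs p_evb p_efb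

theorem gam_gm3 : S_gm3 := p_gm3 gam_gi2

theorem gam_mkd : S_mkd := p_mkd p_sev

theorem gam_dmf : S_dmf := p_dmf p_dua

end Pool.Agent.MP_a57f33_nt.RG
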