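import Pool.Agent.Lib.MP_a57f33_nt.RG.Stm

/-!
# Project RG (MP_a57f33_nt): assembly
-/

namespace Pool.Agent.MP_a57f33_nt.RG

open Pool.Agent.MP_a57f33_nt

/-! ### eigenvectors with simple eigenvalues -/

section

variable {K : Type} [Field K]

/-- The functional `v ↦ f · v`. -/
def main_fun {n : ℕ} (f : Fin n → K) : (Fin n → K) →ₗ[K] K where
  toFun v := f ⬝ᵥ v
  map_add' v w := dotProduct_add f v w
  map_smul' c v := by simp

/-- Eigenvectors with simple eigenvalues are killed by `m`. -/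
theorem main_kill (hsmp : S_smp) {n : ℕ} {A m : Matrix (Fin n) (Fin n) K} {x : K}
    (hc : Cnd (Matrix.toLin' A) (Matrix.toLin' m)) (hx : A.charpoly.rootMultiplicity x = 1) :
    (∀ e : Fin n → K, Matrix.mulVec A e = x • e → Matrix.mulVec m e = 0) ∧
      ∀ f : Fin n → K, Matrix.vecMul f A = x • f → Matrix.vecMul f m = 0 := by
  have hx' : (LinearMap.charpoly (Matrix.toLin' A)).rootMultiplicity x = 1 := by
    rw [Matrix.charpoly_toLin']
    exact hx
  obtain ⟨h1, h2⟩ := hsmp K (Fin n → K) (Matrix.toLin' A) (Matrix.toLin' m) x hc hx'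
  constructor
  · intro e he
    have := h1 e (by rw [Matrix.toLin'_apply]; exact he)
    rwa [Matrix.toLin'_apply] at this
  · intro f hf
    have e1 : ∀ (X : Matrix (Fin n) (Fin n) K) (v : Fin n → K),
        (main_fun f ∘ₗ Matrix.toLin' X) v = Matrix.vecMul f X ⬝ᵥ v := by
      intro X v
      rw [LinearMap.comp_apply, Matrix.toLin'_apply]
      change f ⬝ᵥ Matrix.mulVec X v = _
      rw [Matrix.dotProduct_mulVec]
    have h3 := h2 (main_fun f) (by
      apply LinearMap.ext
      intro v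
      rw [e1, hf, smul_dotProduct]
      rfl)
    funext j
    have h4 := LinearMap.congr_fun h3 (Pi.single j 1)
    rw [e1, dotProduct_single_one, LinearMap.zero_apply] at h4
    exact h4

end

/-! ### the theorem for one element of `dm₀` -/

section

variable {K : Type} [Field K] [IsAlgClosed K] [CharZero K]

theorem main_dm (hsmp : S_smp) (hmat : S_mat) {n : ℕ} (A B : Matrix (Fin n) (Fin n) K)
    (hirr : ∀ U : Submodule K (Fin n → K), (∀ x ∈ U, Matrix.mulVec A x ∈ U) →
      (∀ x ∈ U, Matrix.mulVec B x ∈ U) → U = ⊥ ∨ U = ⊤)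
    (hrig : n ^ 2 + 2 ≤ zd (K := K) A + zd (K := K) B + zd (K := K) (A + B))
    {x y : K} {e f : Fin n → K} (he : Matrix.mulVec A e = x • e) (hf : Matrix.vecMul f B = y • f)
    (hx : A.charpoly.rootMultiplicity x = 1) (hy : B.charpoly.rootMultiplicity y = 1)
    {ψ : QX} (hψ : ψ ∈ dm0) (hc : ∀ j : ℕ, coeff ψ (List.replicate j false ++ [true]) = 0) :
    f ⬝ᵥ Matrix.mulVec (FreeAlgebra.lift ℚ (fun b : Bool => cond b (-B) A) ψ) e = 0 := by
  obtain ⟨m0, m1, m2, h0, h1, _, h3, _⟩ := hmat K n A B hirr hrig ψ hψ hc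
  have k0 := (main_kill hsmp h0 hx).1 e he
  have k1 := (main_kill hsmp h1 hy).2 f hf
  rw [h3, Matrix.sub_mulVec, k0, sub_zero, Matrix.dotProduct_mulVec, k1, zero_dotProduct]

/-- The connection coefficients of solutions with the same part of depth one. -/
theorem main_Z (hsmp : S_smp) (hmat : S_mat) (hflo : S_flo) (htrd : S_trd) {n : ℕ}
    (A B : Matrix (Fin n) (Fin n) K)
    (hirr : ∀ U : Submodule K (Fin n → K), (∀ x ∈ U, Matrix.mulVec A x ∈ U) →
      (∀ x ∈ U, Matrix.mulVec B x ∈ U) → U = ⊥ ∨ U = ⊤)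
    (hrig : n ^ 2 + 2 ≤ zd (K := K) A + zd (K := K) B + zd (K := K) (A + B))
    {x y : K} {e f : Fin n → K} (he : Matrix.mulVec A e = x • e) (hf : Matrix.vecMul f B = y • f)
    (hx : A.charpoly.rootMultiplicity x = 1) (hy : B.charpoly.rootMultiplicity y = 1)
    {k : Type} [CommRing k] [Algebra K k] [Algebra ℚ k] (γ γ' : ℕ → k) (Z Z' : List Bool → k)
    (hZ : Cyc.RegDS γ Z) (hZ' : Cyc.RegDS γ' Z')
    (hc : ∀ j : ℕ, Z (List.replicate j false ++ [true]) = Z' (List.replicate j false ++ [true]))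
    (N : ℕ) :
    BZ.SW N (fun w => (f ⬝ᵥ Matrix.mulVec (BZ.ev A (-B) w) e) • Z w) =
      BZ.SW N (fun w => (f ⬝ᵥ Matrix.mulVec (BZ.ev A (-B) w) e) • Z' w) := by
  have key : ∀ (N : ℕ) (Y Y' : List Bool → k), (∀ w : List Bool, w.length = N → Y w = Y' w) →
      BZ.SW N (fun w => (f ⬝ᵥ Matrix.mulVec (BZ.ev A (-B) w) e) • Y w) =
        BZ.SW N (fun w => (f ⬝ᵥ Matrix.mulVec (BZ.ev A (-B) w) e) • Y' w) := by
    have gen : ∀ (N : ℕ) (F F' : List Bool → k), (∀ w : List Bool, w.length = N → F w = F' w) →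
        BZ.SW N F = BZ.SW N F' := by
      intro N
      induction N with
      | zero => intro F F' h; exact h [] rfl
      | succ N ih =>
        intro F F' h
        simp only [BZ.SW]
        rw [ih _ _ (fun w hw => h (false :: w) (by simp [hw])),
          ih _ _ (fun w hw => h (true :: w) (by simp [hw]))]
    intro N Y Y' h
    exact gen N _ _ fun w hw => by rw [h w hw]
  let P : (List Bool → k) → Prop := fun Y => ∀ N : ℕ,
    BZ.SW N (fun w => (f ⬝ᵥ Matrix.mulVec (BZ.ev A (-B) w) e) • Y w) =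
      BZ.SW N (fun w => (f ⬝ᵥ Matrix.mulVec (BZ.ev A (-B) w) e) • Z' w)
  have hP : InvtD P := by
    intro δ Y φ d T c _ hφ hd hd3 hφc hT hPY N
    rw [← hPY N]
    have hφ0 : ∀ j : ℕ, coeff φ (List.replicate j false ++ [true]) = 0 := by
      intro j
      by_cases hj : j = d - 1
      · rw [hj]; exact hφc
      · exact hd _ (by
          simp only [List.length_append, List.length_replicate, List.length_singleton]
          omega)
    obtain ⟨m0, m1, m2, h0, h1, _, h3, _⟩ := hmat K n A B hirr hrig φ hφ hφ0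
    have c0 : m0 * A = A * m0 := by
      apply Matrix.toLin'.injective
      rw [Matrix.toLin'_mul, Matrix.toLin'_mul]
      exact h0.1
    have c1 : m1 * B = B * m1 := by
      apply Matrix.toLin'.injective
      rw [Matrix.toLin'_mul, Matrix.toLin'_mul]
      exact h1.1
    exact hflo K k n A (-B) m0 m1 f e d φ (by omega) hd c0 (by rw [mul_neg, neg_mul, c1]) h3
      ((main_kill hsmp h0 hx).1 e he) ((main_kill hsmp h1 hy).2 f hf) T Y c N hT
  obtain ⟨γ'', Z'', _, hP'', hw⟩ := htrd P hP γ γ' Z Z' hZ hZ' hc (fun _ => rfl) N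
  rw [← hP'' N]
  exact key N Z Z'' fun w hw' => hw w (le_of_eq hw')

end

end Pool.Agent.MP_a57f33_nt.RG
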