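import Pool.Agent.Lib.MP_a57f33_nt.RG.Stm

/-!
# Project RG (MP_a57f33_nt): second part, the Gamma structure of the connection coefficients

GOAL (`S_gst`). `K` algebraically closed of characteristic 0, `A, B` an irreducible rigid pair, `e`, `f` eigenvectors
for simple eigenvalues of `A`, `B`. There are `w_N ∈ K`, `w_N = 0` for even `N`, such that for every solution `Z` of the
regularised double shuffle relations with values in a commutative `K`-algebra, with
`F_Z(z) = ∑_N z^N ∑_{|w| = N} (f w(A,-B) e) Z(w)`, the series `H_Z = F_Z exp(- ∑_{N ≥ 3} w_N Z(x₀^(N-1) x₁) z^N)` is even, and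
it depends only on `Z(x₀x₁)`. For homogeneous `ψ ∈ dm₀` of weight `N`: `f ψ(A,-B) e = w_N (ψ|x₀^(N-1) x₁) (f e)`.

Conventions as in `RG/Stm.lean`; the piece `[xxx]` proves `p_xxx` in `RG/P/xxx.lean`, import
`Pool.Agent.Lib.MP_a57f33_nt.RG.Stm2`.
-/

namespace Pool.Agent.MP_a57f33_nt.RG

open Pool.Agent.MP_a57f33_nt

section ser

variable {K k : Type} [Field K] [CommRing k] [Algebra K k]

/-- The series `∑_N z^N ∑_{|w| = N} (f w(A,B) e) Z(w)`. -/
noncomputable def FS {n : ℕ} (A B : Matrix (Fin n) (Fin n) K) (e f : Fin n → K)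
    (Z : List Bool → k) : PowerSeries k :=
  PowerSeries.mk fun N => BZ.SW N fun w => (f ⬝ᵥ Matrix.mulVec (BZ.ev A B w) e) • Z w

/-- The series `∑_{N ≥ 3} w_N Z(x₀^(N-1) x₁) z^N`. -/
noncomputable def LL (w : ℕ → K) (Z : List Bool → k) : PowerSeries k :=
  PowerSeries.mk fun N => if 3 ≤ N then w N • Z (List.replicate (N - 1) false ++ [true]) else 0

/-- The exponential series `∑_j g^j / j!` of a power series without constant term. -/
noncomputable def expS {k : Type} [CommRing k] [Algebra ℚ k] (g : PowerSeries k) : PowerSeries k :=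
  PowerSeries.mk fun N => ∑ j ∈ Finset.range (N + 1),
    ((j.factorial : ℚ)⁻¹) • PowerSeries.coeff N (g ^ j)

end ser

/-- [exs] No hypotheses. PROOF. (1) the `N`-th coefficient of `g^i h^j` is `0` if `i + j > N` (`X^i` divides `g^i`); so for any
`D ≥ N` the sum over `j ≤ N` in `expS` may be taken over `j ≤ D`. `(g + h)^j / j! = ∑_{i + l = j} g^i h^l / (i! l!)` (`Commute.add_pow'` or
`add_pow`), and `∑_{i + l ≤ N}` and `∑_{i ≤ N, l ≤ N}` agree in the `N`-th coefficient. (2) clear. (3) the `N`-th coefficient of `(c z^d)^j` is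
`c^j` if `N = d j` and `0` otherwise. (4) `expS` commutes with `z ↦ - z`: `PowerSeries.rescale (-1)` is a ring map with
`coeff N (rescale (-1) g) = (-1)^N coeff N g`. -/
def S_exs : Prop := ∀ (k : Type) [CommRing k] [Algebra ℚ k],
  (∀ g h : PowerSeries k, PowerSeries.constantCoeff g = 0 → PowerSeries.constantCoeff h = 0 →
    expS (g + h) = expS g * expS h) ∧
  expS (0 : PowerSeries k) = 1 ∧
  (∀ (d : ℕ) (c : k), 1 ≤ d → expS (PowerSeries.monomial d c) = PowerSeries.mk fun N =>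
    if d ∣ N then (((N / d).factorial : ℚ)⁻¹) • c ^ (N / d) else 0) ∧
  ∀ g : PowerSeries k, expS (PowerSeries.rescale (-1) g) = PowerSeries.rescale (-1) (expS g)

/-- [sch] No hypotheses. (Schur.) PROOF. `V = 0`: `x = 0`. Otherwise `X` has an eigenvalue `x`; `ker (X - x)` is invariant under `a`, `b`,
not `⊥`, so it is `⊤`. -/
def S_sch : Prop := ∀ (K : Type) [Field K] [IsAlgClosed K] (V : Type) [AddCommGroup V]
  [Module K V] [FiniteDimensional K V] (a b X : Module.End K V), Irr a b →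
  X * a = a * X → X * b = b * X → ∃ x : K, X = algebraMap K (Module.End K V) x

/-- [ex] Hypothesis `S_sch`. Infinitesimal rigidity. PROOF. `n = dim V`; `n = 0` is impossible (`2 ≤ 0`). Let `Z_0, Z_1, Z_2 ⊆ End V` be the
centralisers of `a`, `b`, `a + b`, and `Θ : End V × End V × End V → End V`, `(X0, X1, X2) ↦ [a, X0] + [b, X1] - [a + b, X2]`. The bilinear form
`tr (X Y)` on `End V` is nondegenerate, and `Y` is orthogonal to the range of `Θ` iff `Y` commutes with `a` and `b` (`tr (Y [a, X]) =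
tr ([Y, a] X)`), so the orthogonal space is `K 1` (`S_sch`) and `dim (range Θ) = n² - 1`, `dim (ker Θ) = 2 n² + 1`. `ker Θ` contains
`T = (Z_0 × Z_1 × Z_2) + {(X, X, X)}`, the range of the linear map `Z_0 × Z_1 × Z_2 × End V → (End V)³`, `(z, X) ↦ z + (X, X, X)`, with the kernel
`≅ Z_0 ∩ Z_1 ∩ Z_2 = K 1`; so `dim T = ∑ dim Z_i + n² - 1 ≥ 2 n² + 1`, so `T = ker Θ`. `(p, q, 0) ∈ ker Θ`: `p = z_0 + X`, `q = z_1 + X`,
`0 = z_2 + X`. Put `m_i = z_i`. -/
def S_ex : Prop := ∀ (K : Type) [Field K] [IsAlgClosed K] (V : Type) [AddCommGroup V]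
  [Module K V] [FiniteDimensional K V] (a b : Module.End K V), Irr a b →
  Module.finrank K V ^ 2 + 2 ≤ zd (K := K) a + zd (K := K) b + zd (K := K) (a + b) →
  ∀ p q : Module.End K V, (a * p - p * a) + (b * q - q * b) = 0 →
  ∃ m0 m1 m2 : Module.End K V, m0 * a = a * m0 ∧ m1 * b = b * m1 ∧
    m2 * (a + b) = (a + b) * m2 ∧ p = m0 - m2 ∧ q = m1 - m2

/-- [mxt] Hypothesis `S_ex`. PROOF. Let `E = FreeAlgebra.lift ℚ (fun b => cond b B A)`, `p = E (ph0 ψ)`, `q = E (ph1 ψ)`. `BZ.cyc_id` (in `BZ/P_cyc.lean`)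
gives `(A p - p A) + (B q - q B) = 0`; `S_ex` for `Matrix.toLin'` (irreducibility and `zd (toLin' A) = zd A` as in `S_mat`: `Matrix.toLinAlgEquiv'`). The
evaluation of `ψ` at `(A, -B)` is `E (sgn ψ) = E (ph1 ψ) - E (ph0 ψ)`, the evaluation at `(-A - B, -B)` is `E (rot ψ) = E (ph1 ψ)` (algebra maps,
check on letters). -/
def S_mxt : Prop := ∀ (K : Type) [Field K] [IsAlgClosed K] [CharZero K] (n : ℕ)
  (A B : Matrix (Fin n) (Fin n) K),
  (∀ U : Submodule K (Fin n → K), (∀ x ∈ U, Matrix.mulVec A x ∈ U) →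
    (∀ x ∈ U, Matrix.mulVec B x ∈ U) → U = ⊥ ∨ U = ⊤) →
  n ^ 2 + 2 ≤ zd (K := K) A + zd (K := K) B + zd (K := K) (A + B) →
  ∀ ψ ∈ dm0, ∃ m0 m1 m2 : Matrix (Fin n) (Fin n) K, m0 * A = A * m0 ∧ m1 * B = B * m1 ∧
    m2 * (A + B) = (A + B) * m2 ∧
    FreeAlgebra.lift ℚ (fun b : Bool => cond b (-B) A) ψ = m1 - m0 ∧
    FreeAlgebra.lift ℚ (fun b : Bool => cond b (-B) (-A - B)) ψ = m1 - m2

/-- [sml] No hypotheses. PROOF. The eigenspace `ker (A - x)` has dimension 1 (it is contained in the generalised eigenspace, of dimension 1; compare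
`p_smp` in `RG/P/smp.lean`, by `Matrix.toLin'`), and `m` preserves it. For `f`: apply this to the transposed matrices
(`Matrix.charpoly_transpose`, `Matrix.vecMul_transpose`). -/
def S_sml : Prop := ∀ (K : Type) [Field K] (n : ℕ) (A m : Matrix (Fin n) (Fin n) K) (x : K),
  m * A = A * m → A.charpoly.rootMultiplicity x = 1 →
  (∀ e : Fin n → K, e ≠ 0 → Matrix.mulVec A e = x • e → ∃ s : K, Matrix.mulVec m e = s • e) ∧
  ∀ f : Fin n → K, f ≠ 0 → Matrix.vecMul f A = x • f → ∃ s : K, Matrix.vecMul f m = s • f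

/-- [add] No hypotheses. PROOF. `dm₀` is defined by linear conditions (compare `RT.dm0_smul` in `RT/Fin.lean`); the second is `al_even` in `Codepth.lean`
(`dm0_subset_DS1` in `Bridge.lean`; `al c m` is the value at a word `x₀^m x₁`, see its definition) for `d ≥ 2`, and for `d ≤ 1` the coefficient
of `x₁` is `0`. -/
def S_add : Prop := (∀ ψ ψ' : QX, ψ ∈ dm0 → ψ' ∈ dm0 → ψ + ψ' ∈ dm0) ∧
  ∀ (ψ : QX) (d : ℕ), ψ ∈ dm0 → IsHom d ψ → Even d →
    coeff ψ (List.replicate (d - 1) false ++ [true]) = 0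

/-- [gmx] Hypotheses `S_mat`, `S_mxt`, `S_smp`, `S_sch`, `S_sml`, `S_add`. PROOF. For every `ψ ∈ dm₀`: `S_mxt` gives `m_i`, `S_sml` gives `m0 e = s e`; subtract `s 1`
from all `m_i`: `m0 e = 0`; `f m1 = σ f`. Call such `(m0, m1, m2, σ)` a datum for `ψ`. UNIQUENESS: if `(m_i)`, `(m_i')` satisfy the conclusions of `S_mxt` for the same
`ψ`, then `X = m0 - m0' = m1 - m1' = m2 - m2'` commutes with `A`, `B`, so it is a scalar (`S_sch` for `Matrix.toLin'`); if `m0 e = m0' e = 0` then `X = 0`. If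
all `(ψ|x₀^j x₁) = 0` then `S_mat` and `S_smp` (as in `main_kill` in `RG/Main.lean`) give a datum with `σ = 0`. Data are linear in `ψ`. If no `ψ₀ ∈ dm₀`, homogeneous
of degree `d`, has `c₀ = coeff ψ₀ (x₀^(d-1) x₁) ≠ 0`, take `w = 0` (for homogeneous `ψ` of degree `d` the coefficients at `x₀^j x₁`, `j ≠ d - 1`, vanish). Otherwise
fix `ψ₀` with datum `(m⁰, σ₀)` and `w = σ₀ / c₀`. For `ψ` with datum `(m, σ)`, `c = coeff ψ (x₀^(d-1) x₁)`: `χ = c₀ ψ - c ψ₀ ∈ dm₀` has no depth one part, so its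
datum has `σ = 0`; by uniqueness it is `c₀ m - c m⁰`, so `c₀ σ = c σ₀`. -/
def S_gmx : Prop := ∀ (K : Type) [Field K] [IsAlgClosed K] [CharZero K] (n : ℕ)
  (A B : Matrix (Fin n) (Fin n) K),
  (∀ U : Submodule K (Fin n → K), (∀ x ∈ U, Matrix.mulVec A x ∈ U) →
    (∀ x ∈ U, Matrix.mulVec B x ∈ U) → U = ⊥ ∨ U = ⊤) →
  n ^ 2 + 2 ≤ zd (K := K) A + zd (K := K) B + zd (K := K) (A + B) →
  ∀ (x y : K) (e f : Fin n → K), e ≠ 0 → f ≠ 0 → Matrix.mulVec A e = x • e →
  Matrix.vecMul f B = y • f → A.charpoly.rootMultiplicity x = 1 →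
  B.charpoly.rootMultiplicity y = 1 →
  ∀ d : ℕ, ∃ w : K, ∀ ψ ∈ dm0, IsHom d ψ → ∃ m0 m1 : Matrix (Fin n) (Fin n) K,
    m0 * A = A * m0 ∧ m1 * B = B * m1 ∧
    FreeAlgebra.lift ℚ (fun b : Bool => cond b (-B) A) ψ = m1 - m0 ∧
    Matrix.mulVec m0 e = 0 ∧ Matrix.vecMul f m1 =
      (w * ((coeff ψ (List.replicate (d - 1) false ++ [true]) : ℚ) : K)) • f

/-- [flg] Hypothesis `S_exs`. PROOF. As `S_flo` in `RG/Stm.lean` (see its proof), with `f m1 = s f`: `E (actL φ g) = m1 * E g - E g * m0`, so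
`f E((actL φ)^j g) e = s^j f (E g) e`. `T^j` is adjoint to `(actL φ)^j`; for a word `a` the sum over `|w| = N` of `(f w e) coeff ((actL φ)^j (word a)) w` is `f E((actL φ)^j (word
a)) e = s^j (f a e)` if `N = |a| + j d` and `0` otherwise. So the `N`-th coefficient of the left side is `∑_{j d ≤ N} (c^j / j!) s^j ∑_{|a| = N - j d} (f a e) Z(a)`, which
is the `N`-th coefficient of the product, by (3) of `S_exs`. (All words in `T^j (word w)` have length `|w| - j d`.) -/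
def S_flg : Prop := ∀ (K k : Type) [Field K] [CharZero K] [CommRing k] [Algebra K k] [Algebra ℚ k]
  (n : ℕ) (A B m0 m1 : Matrix (Fin n) (Fin n) K) (e f : Fin n → K) (s : K) (d : ℕ) (φ : QX),
  1 ≤ d → IsHom d φ → m0 * A = A * m0 → m1 * B = B * m1 →
  FreeAlgebra.lift ℚ (fun b : Bool => cond b B A) φ = m1 - m0 →
  Matrix.mulVec m0 e = 0 → Matrix.vecMul f m1 = s • f →
  ∀ (T : Module.End ℚ QX) (Z : List Bool → k) (c : k), RT.IsAdj (RT.actL φ) T →
    FS A B e f (fun w => (RT.expP List.length T Z w).eval c) =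
      expS (PowerSeries.monomial d (s • c)) * FS A B e f Z

/-- [llf] No hypotheses. PROOF. `T (word (x₀^j x₁)) = coeff φ (x₀^j x₁) • 1`, `T 1 = 0` (`RT.p_adx` (3) and `Lowers`; `coeff φ [false] = 0`), so
`RT.expP length T Z (x₀^j x₁) = C (Z (x₀^j x₁)) + monomial 1 (coeff φ (x₀^j x₁) • Z [])` (`RT.p_expc`); for `j + 1 ≠ d` the coefficient is `0` by
homogeneity. -/
def S_llf : Prop := ∀ (K k : Type) [Field K] [CharZero K] [CommRing k] [Algebra K k] [Algebra ℚ k]
  (d : ℕ) (φ : QX), 3 ≤ d → IsHom d φ → φ ∈ LieX →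
  ∀ (T : Module.End ℚ QX) (Z : List Bool → k) (c : k) (w : ℕ → K), RT.IsAdj (RT.actL φ) T →
    Z [] = 1 →
    LL w (fun v => (RT.expP List.length T Z v).eval c) = LL w Z + PowerSeries.monomial d
      ((w d * ((coeff φ (List.replicate (d - 1) false ++ [true]) : ℚ) : K)) • c)

/-- [gst] Hypotheses `S_gmx`, `S_flg`, `S_llf`, `S_exs`, `S_add`. THE THEOREM. PROOF. `w N` is from `S_gmx` for `d = N` if `N` is odd and `N ≥ 3`, and `0` otherwise. (1) Fix
`γ', Z'` and `R = FS A (-B) e f Z' * expS (-LL w Z')`, `P Y := (FS A (-B) e f Y * expS (-LL w Y) = R)`. `RT.Invt P`: for `φ ∈ dm₀` homogeneous of degree `d ≥ 3`, by `S_gmx` (and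
`m1 * (-B) = (-B) * m1`), `S_flg` with `s = w_gmx * coeff φ` (`= w d * coeff φ`; for even `d` both are `0` by `S_add`) and `S_llf`: the product is multiplied by
`expS μ * expS (-μ) = 1`, `μ = monomial d (s • c)` (`S_exs`; the constant coefficients of `LL` and `μ` are `0`). `RT.tor P` (in `RT/Fin.lean`) gives for each `N` a `Z''` with `P Z''`
and `Z v = Z'' v` for `|v| ≤ N`; the `N`-th coefficient of `FS * expS (-LL)` depends only on the values at words of length `≤ N`. (2) `RT.b_sign`: `Z⁻ v = (-1)^|v| Z v` is a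
solution with the same value at `x₀x₁`; `FS Z⁻ = rescale (-1) (FS Z)`, `LL w Z⁻ = rescale (-1) (LL w Z)`, so by (1) and `S_exs` (4) the product is invariant under
`rescale (-1)`, and its odd coefficients vanish (`2` is invertible). (3) `f (m1 - m0) e = w coeff (f e)` from `S_gmx`; for even `N` the coefficient is `0` by `S_add`; for `N = 1` it is
`0` by the definition of `dm₀`. -/
def S_gst : Prop := ∀ (K : Type) [Field K] [IsAlgClosed K] [CharZero K] (n : ℕ)
  (A B : Matrix (Fin n) (Fin n) K),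
  (∀ U : Submodule K (Fin n → K), (∀ x ∈ U, Matrix.mulVec A x ∈ U) →
    (∀ x ∈ U, Matrix.mulVec B x ∈ U) → U = ⊥ ∨ U = ⊤) →
  n ^ 2 + 2 ≤ zd (K := K) A + zd (K := K) B + zd (K := K) (A + B) →
  ∀ (x y : K) (e f : Fin n → K), e ≠ 0 → f ≠ 0 → Matrix.mulVec A e = x • e →
  Matrix.vecMul f B = y • f → A.charpoly.rootMultiplicity x = 1 →
  B.charpoly.rootMultiplicity y = 1 →
  ∃ w : ℕ → K, (∀ N : ℕ, Even N → w N = 0) ∧
    (∀ (k : Type) [CommRing k] [Algebra K k] [Algebra ℚ k] (γ γ' : ℕ → k) (Z Z' : List Bool → k),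
      Cyc.RegDS γ Z → Cyc.RegDS γ' Z' → Z [false, true] = Z' [false, true] →
      FS A (-B) e f Z * expS (-LL w Z) = FS A (-B) e f Z' * expS (-LL w Z')) ∧
    (∀ (k : Type) [CommRing k] [Algebra K k] [Algebra ℚ k] (γ : ℕ → k) (Z : List Bool → k),
      Cyc.RegDS γ Z → ∀ N : ℕ, Odd N →
      PowerSeries.coeff N (FS A (-B) e f Z * expS (-LL w Z)) = 0) ∧
    ∀ (N : ℕ), ∀ ψ ∈ dm0, IsHom N ψ →
      f ⬝ᵥ Matrix.mulVec (FreeAlgebra.lift ℚ (fun b : Bool => cond b (-B) A) ψ) e =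
        w N * ((coeff ψ (List.replicate (N - 1) false ++ [true]) : ℚ) : K) * (f ⬝ᵥ e)

end Pool.Agent.MP_a57f33_nt.RG
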