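import Pool.Agent.Lib.MP_a57f33_nt.RG.Defs
import Mathlib

/-!
# Project RG (MP_a57f33_nt): double shuffle and rigid local systems, statements with proofs in words

GOAL. `K` algebraically closed of characteristic 0, `A, B` two `n × n` matrices without common
invariant subspace and with `n² + 2 ≤ dim Z(A) + dim Z(B) + dim Z(A + B)` (an irreducible rigid local
system on the projective line minus three points).
(1) For `ψ ∈ dm₀` with all `(ψ|x₀^j x₁) = 0` there are `m₀, m₁, m_∞` commuting with `A`, `B`, `A + B`,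
with `ψ(A,-B) = m₁ - m₀`, `ψ(-A-B,-B) = m₁ - m_∞`, and the trace of `m_i` on the image of every
polynomial in `A_i` is zero. So `f ψ(A,-B) e = 0` for eigenvectors `e` of `A` and `f` of `B` with
simple eigenvalues.
(2) For two solutions `Z`, `Z'` of the regularised double shuffle relations with the same values at
the words `x₀^j x₁`, the sums `∑_{|w| = N} (f w(A,-B) e) Z(w)` agree.

The piece `[xxx]` proves `p_xxx : S_a → S_b → … → S_xxx` with the hypotheses named in its docstring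
(in this order), in the file `RG/P/xxx.lean`, namespace `Pool.Agent.MP_a57f33_nt.RG`, import
`Pool.Agent.Lib.MP_a57f33_nt.RG.Stm`. All pieces are independent of each other.

Notation in the proofs: `φ_i = phi k N i`, `a ∘ b` composition of linear maps.
-/

namespace Pool.Agent.MP_a57f33_nt.RG

open Pool.Agent.MP_a57f33_nt

/-! ## Part A: the potential -/

/-- [pot] No hypotheses. `k w = (K ψ w : K)`. PROOF. `cyc` is `BZ.p_cyc`; `dbl`: `RG.dbl C k` is the
cast of `BZ.dbl C (K ψ)`, which is `0` by `BZ.p_dbl` (`N ≥ 1`; the constant `c = coeff (sgn ψ)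
(x₀^(N-1) x₁)` is `- coeff ψ (x₀^(N-1) x₁) = 0`, cf. `dbl_sgn_coeff` in `BZ/P_dbl.lean`, private there) and by definition for
`N = 0`. `phi k N i a b = ∑_{|w| = N} coeff (ph_i ψ) w • ev a b w`, where `ph0 ψ, ph1 ψ ∈ LieX` have
zero coefficients at `[]` and at the letters (`BZ.tn_ph0_lie`, `tn_ph1_lie`, `tn_ph0_lin`,
`tn_ph1_lin`, `tn_coeff_nil` in `BZ/P_tn.lean`); `one` is the value at `[]`. `tw`, `tr`: make `S` a
`ℚ`-algebra (`letI := Algebra.compHom S (algebraMap ℚ K)`), `E : QX →ₐ[ℚ] Polynomial S`, `X_i ↦ C a_i * X`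
(`BZ.tn_EV`, `tn_EV_coeff`); for every `φ ∈ LieX` by `lie_induction`: `E_{a+x,b+y} φ = E_{a,b} φ +
coeff φ [false] • C x X + coeff φ [true] • C y X` (the added elements are central; compare
`BZ.tw_shift`, or use `BZ.tn_lie`), and `τ` of the `N`-th coefficient of `E φ` is `coeff φ [false] •
τ(..) + coeff φ [true] • τ(..)` (compare `BZ.tw_trace`). -/
def S_pot : Prop := ∀ (K : Type) [Field K] [CharZero K] (ψ : QX), ψ ∈ dm0 →
  (∀ j : ℕ, coeff ψ (List.replicate j false ++ [true]) = 0) →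
  ∀ N : ℕ, Pot (fun w => ((BZ.K ψ w : ℚ) : K)) N

/-- [inv] No hypotheses. Invariance of `G` under `M ↦ M + x`. PROOF. Let `g M u ∈ S` be `e_i` for `u = [i]` (`e_false = e`,
`e_true = f`) and `g M (i :: j :: u) = e_i M g M (j :: u)`; `e_i g M (i :: u) = g M (i :: u)`, `e_i g M (j :: u) = 0`
for `j ≠ i` (`e e = e`, `f f = f`). Then `G k N e f M = ∑_{|u| = N} ∑_i k(i u) g(u i) `, written
with `ev (e M) (f M) w * e_i = g M (w ++ [i])`. WARNING: here the letter `i` stands at the front in `k` and at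
the end in `g`; so put `k'(u) = k (rotated u)`, `k' (w ++ [i]) = k (i :: w)`: `G = ∑_{|u| = N+1} k'(u) g M u`
(`BZ.cnv_SW_snoc`), and `dbl C k' = 0` for `|C| = N` is needed; to avoid this take `cyc` (hypothesis
below), so `k' = k` on words of length `N + 1`. For `r : ℕ` let `c r u` be the coefficient of `x^r` in
`g (M + x) u`: `c r [i] = if r = 0 then e_i else 0`, `c r (i :: j :: u) = e_i M c r (j :: u) + (if i = j ∧ r ≥ 1
then c (r-1) (j :: u) else 0)`, so `g (M + x) u = ∑_{r ≤ |u|} x^r c r u`, `c 0 = g M`. CLAIM, for every function `k` and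
`m ≥ 0`, `r ≥ 1`: `∑_{|u| = m+1} r k(u) c r u = ∑_{|C| = m} dbl C k • c (r-1) C` for `m ≥ 1`, and the left side is `0` for
`m = 0`. Induction on `m` (all `k`, `r`): `∑_{i,v} r k(i v) c r (i v)`, `|v| = m`, is `∑_i e_i M ∑_v r k(i v) c r v +
∑_v r k(v_1 v) c (r-1) v`; the first sum is `∑_i e_i M ∑_{|C'| = m-1} dbl C' (k (i ·)) c (r-1) C'` by induction; in the
second `r = 1 + (r-1)` and, for `k₁ v = k (v_1 v)`, `∑_v (r-1) k₁(v) c (r-1) v = ∑_{C'} dbl C' k₁ c (r-2) C'`
with `dbl C' k₁ = dbl C' (k (C'_1 ·))`; this is the right side, by `dbl (i C') k = k (i i C') + dbl C' (k (i ·))` and the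
recursion of `c (r-1) (i C')`. So `r ∑_u k(u) c r u = 0` for `r ≥ 1`, `|u| = N + 1`. -/
def S_inv : Prop := ∀ (K S : Type) [Field K] [CharZero K] [Ring S] [Algebra K S]
  (k : List Bool → K) (N : ℕ),
  (∀ (a : Bool) (w : List Bool), w.length = N → k (w ++ [a]) = k (a :: w)) →
  (∀ C : List Bool, C.length = N → dbl C k = 0) →
  ∀ (e f M : S) (x : K), e + f = 1 → e * f = 0 → f * e = 0 →
    G k N e f (M + algebraMap K S x) = G k N e f M

/-- [trg] No hypotheses. PROOF. `N = 0`: `G = k[false] e + k[true] f = 0` (`Pot.one`). `N ≥ 1`: let `F w = τ (ev (e M) (f M) w)`,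
`F (u ++ v) = F (v ++ u)`. `τ (ev (j :: x) * e_i) = τ (e_i * e_j M ⋯)` is `F (j :: x)` if `i = j` and `0` if not, so
`τ (G k N e f M) = ∑_{|w| = N} h w` with `h (j :: x) = k (j :: j :: x) • F (j :: x)`. By `BZ.cnv_cyc_sum`
`N • ∑_w h w = ∑_w cnv_pos w (fun u j v => h (j :: (v ++ u)))`, and this is `∑_w dbl w k • F w = 0`
(compare `BZ.cnv_dbl_sum`, `BZ.cnv_dbl_smul`; the cyclicity of `k` on the words of length `N + 1`: `k (u ++ v) = k (v ++ u)`
if `|u| + |v| = N + 1`). -/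
def S_trg : Prop := ∀ (K S : Type) [Field K] [CharZero K] [Ring S] [Algebra K S]
  (k : List Bool → K) (N : ℕ), Pot k N →
  ∀ (e f M : S), e + f = 1 → e * f = 0 → f * e = 0 →
  ∀ τ : S →ₗ[K] K, (∀ x y, τ (x * y) = τ (y * x)) → τ (G k N e f M) = 0

/-- [fac] No hypotheses. PROOF. By induction on `w`: `ev (α e β) (α f β) w ∘ α = α ∘ ev (e β α) (f β α) w`
and `β ∘ ev (α e β) (α f β) w = ev (β α e) (β α f) w ∘ β`. The first gives the first equation (the sums
`SW` commute with composition: `BZ.cnv_SW_map`). For the second: the left side is `(∑_i ∑_w k(i w) e_i ev (M e) (M f) w) β`,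
`M = β α`, and the right side `(∑_i ∑_w k(i w) ev (e M) (f M) w e_i) β`; with `g M u = e_{u_1} M e_{u_2} ⋯ M e_{u_{N+1}}`
(as in [inv]) `e_i ev (M e) (M f) w = g M (i :: w)`, `ev (e M) (f M) w e_i = g M (w ++ [i])`; both sums are
`∑_{|u| = N+1} k(u) g M u` (`BZ.SW`, `BZ.cnv_SW_snoc`, cyclicity). -/
def S_fac : Prop := ∀ (K V W : Type) [Field K] [AddCommGroup V] [Module K V] [AddCommGroup W]
  [Module K W] (k : List Bool → K) (N : ℕ),
  (∀ (a : Bool) (w : List Bool), w.length = N → k (w ++ [a]) = k (a :: w)) →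
  ∀ (α : W →ₗ[K] V) (β : V →ₗ[K] W) (e f : Module.End K W),
    (phi k N false (α ∘ₗ e ∘ₗ β) (α ∘ₗ f ∘ₗ β) ∘ₗ α ∘ₗ e +
      phi k N true (α ∘ₗ e ∘ₗ β) (α ∘ₗ f ∘ₗ β) ∘ₗ α ∘ₗ f = α ∘ₗ G k N e f (β ∘ₗ α)) ∧
    (e ∘ₗ β ∘ₗ phi k N false (α ∘ₗ e ∘ₗ β) (α ∘ₗ f ∘ₗ β) +
      f ∘ₗ β ∘ₗ phi k N true (α ∘ₗ e ∘ₗ β) (α ∘ₗ f ∘ₗ β) = G k N e f (β ∘ₗ α) ∘ₗ β)

/-! ## Part B: linear algebra -/

/-- [shf] No hypotheses. PROOF. `aeval (a + x) q = aeval a (q.comp (X + C x))`. -/
def S_shf : Prop := ∀ (K V : Type) [Field K] [AddCommGroup V] [Module K V] [FiniteDimensional K V]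
  (a m : Module.End K V) (x : K), Cnd a m → Cnd (a + algebraMap K (Module.End K V) x) m

/-- [im1] No hypotheses. Let `a = ι ∘ ρ` on `V`, `c = ρ ∘ ι` on `U`. PROOF. `ι (mV' stuff)`: `ι ρ mV = mV ι ρ = ι mU ρ`, so `ρ mV =
mU ρ`; `mU ρ ι = ρ mV ι = ρ ι mU`. For a polynomial `q`: `aeval a (q * X) = ι ∘ aeval c q ∘ ρ` (`a ∘ ι = ι ∘ c`), and its range
is `ι (range (aeval c q))` (`ρ` surjective). `ι` induces an isomorphism `range (aeval c q) ≃ range (aeval a (q * X))`
which intertwines `mU` and `mV`, so the traces agree (`LinearMap.trace_conj'`). -/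
def S_im1 : Prop := ∀ (K V U : Type) [Field K] [AddCommGroup V] [Module K V]
  [FiniteDimensional K V] [AddCommGroup U] [Module K U] [FiniteDimensional K U]
  (ι : U →ₗ[K] V) (ρ : V →ₗ[K] U) (mV : Module.End K V) (mU : Module.End K U),
  Function.Injective ι → Function.Surjective ρ → mV ∘ₗ ι = ι ∘ₗ mU → Cnd (ι ∘ₗ ρ) mV →
  Cnd (ρ ∘ₗ ι) mU ∧ mU ∘ₗ ρ = ρ ∘ₗ mV

/-- [im2] No hypotheses. PROOF. `a = ι ∘ ρ`, `c = ρ ∘ ι`; `mV a = ι mU ρ = a mV`. As in [im1], the trace of `mV` on the range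
of `aeval a (q * X)` is the trace of `mU` on the range of `aeval c q`, so it is `0`. Now let `q` be arbitrary. If `q(0) = 0`
then `q = q₁ * X`. Let `q(0) ≠ 0`, `g = aeval a q`. ADDITIVITY: for `h : V → V` commuting with `m` and an `m`- and `h`-invariant
subspace `U'`: the trace of `m` on `U'` is the trace on `ker h ∩ U'` plus the trace on `h(U')` (for `c : U' → V'`
surjective with `c m = m' c` and a section `s`: `tr m' = tr (m' c s) = tr (c m s) = tr (m s c)`, `1 - s c` has image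
`ker c`, so `tr (m (1 - s c))` is the trace of `m` on `ker c` by `LinearMap.trace_restrict_eq_of_forall_mem`). Apply it to
`h = g` and `U' = V`, and to `h = g`, `U' = range a`: `ker g ⊆ range a` since `q(0) v ∈ range a` for `g v = 0`. So
`tr (mV | g V) - tr (mV | g (range a)) = tr (mV | V) - tr (mV | range a)`, and `g (range a) = range (aeval a (q * X))`;
three of the four traces are `0` (`range a` is the case `q = 1`). -/
def S_im2 : Prop := ∀ (K V U : Type) [Field K] [AddCommGroup V] [Module K V]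
  [FiniteDimensional K V] [AddCommGroup U] [Module K U] [FiniteDimensional K U]
  (ι : U →ₗ[K] V) (ρ : V →ₗ[K] U) (mV : Module.End K V) (mU : Module.End K U),
  Function.Injective ι → Function.Surjective ρ → mV ∘ₗ ι = ι ∘ₗ mU → mU ∘ₗ ρ = ρ ∘ₗ mV →
  LinearMap.trace K V mV = 0 → Cnd (ρ ∘ₗ ι) mU → Cnd (ι ∘ₗ ρ) mV

/-- [zd] No hypotheses. PROOF. `a = ι ∘ ρ`, `c = ρ ∘ ι`, `n = dim V`, `u = dim U`. A `m` commuting with `a` preserves
`range a = range ι`, so there is a unique `m_U` with `m ι = ι m_U`, and `m_U c = c m_U` (see [im1]); this gives a linear map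
`Z(a) → Z(c)`. Surjective: given `m_U ∈ Z(c)`, let `P : V → U` be a left inverse of `ι`, `s : U → V` a section of `ρ`,
`m = ι m_U P + s m_U ρ (1 - ι P)`; then `m ι = ι m_U`, `ρ m = c m_U P + m_U ρ - m_U c P = m_U ρ`, so `m a = ι m_U ρ = a m`.
Kernel: the `m` with `m ι = 0`, `ρ m = 0` (`a m = m a = 0`, `ι` injective): the linear maps `V ⧸ range ι → ker ρ`, of dimension
`(n - u)²`. Rank-nullity. -/
def S_zd : Prop := ∀ (K V U : Type) [Field K] [AddCommGroup V] [Module K V]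
  [FiniteDimensional K V] [AddCommGroup U] [Module K U] [FiniteDimensional K U]
  (ι : U →ₗ[K] V) (ρ : V →ₗ[K] U), Function.Injective ι → Function.Surjective ρ →
  zd (K := K) (S := Module.End K V) (ι ∘ₗ ρ) = zd (K := K) (S := Module.End K U) (ρ ∘ₗ ι) +
    (Module.finrank K V - Module.finrank K U) ^ 2

/-- [zsh] No hypotheses. PROOF. The two centralisers are equal. -/
def S_zsh : Prop := ∀ (K S : Type) [Field K] [Ring S] [Algebra K S] (a : S) (x : K),
  zd (K := K) (a + algebraMap K S x) = zd (K := K) a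

/-- [mx] Hypotheses `S_zd`, `S_zsh`. PROOF. Induction on `dim V` (for all `V`, `a`). `V = 0`: `zd a = 0`. Otherwise `a` has an
eigenvalue `x`; `h = a - x`, `U = range h`, `d = dim ker h ≥ 1`, `dim U = n - d`; with `ρ = h.rangeRestrict`, `ι` the inclusion:
`zd a = zd h = zd (ρ ι) + d²` (`S_zsh`, `S_zd`). `ker (ρ ι - y)` embeds into `ker (h - y) = ker (a - (x + y))`, so its dimension is
`≤ m`; by induction `zd (ρ ι) ≤ m (n - d)`; and `d² ≤ m d`. -/
def S_mx : Prop := ∀ (K : Type) [Field K] [IsAlgClosed K] (m : ℕ) (V : Type) [AddCommGroup V]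
  [Module K V] [FiniteDimensional K V] (a : Module.End K V),
  (∀ x : K, Module.finrank K (LinearMap.ker (a + algebraMap K (Module.End K V) x)) ≤ m) →
  zd (K := K) a ≤ m * Module.finrank K V

/-- [ir] No hypotheses. PROOF. (1) `range a ⊔ range b` is invariant under `a` and `b`; if it is `⊥` then `a = b = 0` and every
line is invariant, against `2 ≤ dim V`. (2) `ker a ⊓ ker b` is invariant; not `⊤` for the same reason. (3) The line spanned by `v`
is invariant, and it is not `V`; so it is `⊥`. (4) `ker η` is invariant; if it is `⊥` then `dim V ≤ 1`. -/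
def S_ir : Prop := ∀ (K V : Type) [Field K] [AddCommGroup V] [Module K V] [FiniteDimensional K V]
  (a b : Module.End K V), Irr a b → 2 ≤ Module.finrank K V →
  LinearMap.range a ⊔ LinearMap.range b = ⊤ ∧ LinearMap.ker a ⊓ LinearMap.ker b = ⊥ ∧
  (∀ (x y : K) (v : V), a v = x • v → b v = y • v → v = 0) ∧
  ∀ (x y : K) (η : V →ₗ[K] K), η ∘ₗ a = x • η → η ∘ₗ b = y • η → η = 0

/-- [sco] Hypothesis `S_ir`. (Scott's lemma.) PROOF. `α : range a × range b → V`, `(u, v) ↦ u + v`, is surjective, so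
`dim ker α = rk a + rk b - n`; `β : V → range a × range b`, `v ↦ (a v, b v)`, is injective; `α β = a + b`. `rk (α β) ≥
dim (range β) - dim ker α = n - (rk a + rk b - n)` (rank-nullity for `α` restricted to `range β`). -/
def S_sco : Prop := ∀ (K V : Type) [Field K] [AddCommGroup V] [Module K V] [FiniteDimensional K V]
  (a b : Module.End K V), Irr a b → 2 ≤ Module.finrank K V →
  2 * Module.finrank K V ≤ Module.finrank K (LinearMap.range a) +
    Module.finrank K (LinearMap.range b) + Module.finrank K (LinearMap.range (a + b))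

/-- [lk] Hypothesis `S_ir`. PROOF. `U_i = range a_i`, `p_i` the inclusions, `r_i = a_i.rangeRestrict`, `α = p0.coprod p1`,
`β = r0.prod r1`, `M = β α`, `W = range (M + x)`, `al` the inclusion, `be` the range restriction of `M + x`. `hp`, `hr` are (1), (2)
of `S_ir`. `hj0`: let `u ∈ U_0`, `(M + x)(u, 0) = 0`, `v = p0 u`; `β v = M (u, 0) = (- x u, 0)`, so `a0 v = - x v`, `a1 v = 0`, `v = 0` by (3), `u = 0`.
`hj1` is similar. `hs0`: `fst ∘ (M + x) : U0 × U1 → U0` must be surjective. If not there is a functional `ξ ≠ 0` on `U0` with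
`ξ ∘ fst ∘ (M + x) = 0`. `η = ξ ∘ r0 : V → K`, `η ≠ 0` (`r0` surjective). `η ∘ p0 ∘ r0 = ξ ∘ fst ∘ M ∘ inl ∘ r0 = - x η` (as
`r0 p0 = fst M inl`) and `η ∘ p1 ∘ r1 = ξ ∘ fst ∘ M ∘ inr ∘ r1 = 0`; (4) gives `η = 0`, a contradiction. `hs1` is similar. -/
def S_lk : Prop := ∀ (K V : Type) [Field K] [AddCommGroup V] [Module K V] [FiniteDimensional K V]
  (a0 a1 : Module.End K V) (x : K), Irr a0 a1 → 2 ≤ Module.finrank K V →
  ∃ (W : Submodule K (LinearMap.range a0 × LinearMap.range a1))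
    (L : Lk K V (LinearMap.range a0) (LinearMap.range a1) W), L.a0 = a0 ∧ L.a1 = a1 ∧ L.x = x

/-- [irb] No hypotheses. PROOF. Let `Y ⊆ W` be invariant under `b0`, `b1`; `E_0 = fst (al Y)`, `E_1 = snd (al Y)`. For `y, y' ∈ Y`:
`be (fst (al y), snd (al y')) = b0 y + b1 y' ∈ Y`, so `be (E_0 × E_1) ⊆ Y`, and `al Y ⊆ E_0 × E_1`. `X = p0 E_0 + p1 E_1 ⊆ V`: for
`e = (e_0, e_1) ∈ E_0 × E_1` the vector `(r0 v, r1 v)`, `v = p0 e_0 + p1 e_1`, is `al (be e) - x e ∈ E_0 × E_1`; so `r_i X ⊆ E_i` and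
`a_i X ⊆ X`. If `X = ⊥` then `E_i = ⊥` (`p_i` injective), `al Y = 0`, `Y = ⊥`. If `X = ⊤` then `U_i = r_i V ⊆ E_i` and
`W = be (U0 × U1) ⊆ Y`. -/
def S_irb : Prop := ∀ (K V U0 U1 W : Type) [Field K] [AddCommGroup V] [Module K V]
  [AddCommGroup U0] [Module K U0] [AddCommGroup U1] [Module K U1] [AddCommGroup W] [Module K W]
  (L : Lk K V U0 U1 W), Irr L.a0 L.a1 → Irr L.b0 L.b1

/-- [dmw] No hypotheses. PROOF. `α = p0.coprod p1`, `β = r0.prod r1`, `al ∘ be = β α + x`, `a0 + a1 = α β`, `R = range (α β + x)`. `α` maps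
`ker (β α + x)` bijectively to `ker (α β + x)` (inverse `v ↦ - x⁻¹ β v`), `dim ker (α β + x) = n - dim R`, and `ker (β α + x) = ker be` has
dimension `dim U0 + dim U1 - dim W`. The inequalities: `p_i : U_i → V` and `be ∘ inl : U0 → W` (…) are injective; `R ⊆ V`; `β`
maps `R` injectively to `al W`: `β (α β + x) v = (β α + x) β v = al (be (β v))`. -/
def S_dmw : Prop := ∀ (K V U0 U1 W : Type) [Field K] [AddCommGroup V] [Module K V]
  [AddCommGroup U0] [Module K U0] [AddCommGroup U1] [Module K U1] [AddCommGroup W] [Module K W]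
  [FiniteDimensional K V] [FiniteDimensional K U0] [FiniteDimensional K U1]
  [FiniteDimensional K W] (L : Lk K V U0 U1 W), L.x ≠ 0 →
  Module.finrank K W + Module.finrank K V = Module.finrank K U0 + Module.finrank K U1 +
    Module.finrank K (LinearMap.range (L.a0 + L.a1 + algebraMap K (Module.End K V) L.x)) ∧
  Module.finrank K U0 ≤ Module.finrank K V ∧ Module.finrank K U1 ≤ Module.finrank K V ∧
  Module.finrank K U0 ≤ Module.finrank K W ∧ Module.finrank K U1 ≤ Module.finrank K W ∧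
  Module.finrank K (LinearMap.range (L.a0 + L.a1 + algebraMap K (Module.End K V) L.x)) ≤
    Module.finrank K V ∧
  Module.finrank K (LinearMap.range (L.a0 + L.a1 + algebraMap K (Module.End K V) L.x)) ≤
    Module.finrank K W

/-- [zdb] Hypotheses `S_zd`, `S_zsh`. PROOF. With `j0 = be ∘ inl`, `s0 = fst ∘ al`: `b0 = j0 s0`, `s0 j0 = fst (al be) inl = r0 p0 + x`. So
`zd b0 = zd (r0 p0) + (w - u0)²` and `zd a0 = zd (r0 p0) + (n - u0)²` (`S_zd`, `S_zsh`); the same for `b1`. For the sum: `α, β` as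
in [dmw], `R = range (α β + x)`, `b0 + b1 = be ∘ al`, `a0 + a1 = α β`. `α ∘ al` maps `W` onto `R` (`α al be = α (β α + x) = (α β + x) α`, `be` and
`α` surjective): `A : W → R` surjective. For `v ∈ R`, `v = (α β + x) v'`, `β v = al (be (β v'))`, so there is `B : R → W` with `al ∘ B = β|R` (`al`
injective), `B` injective. `al (B A) = β α al = (al be - x) al`, so `B A = be al - x`; and `A B = α al B = α β` on `R`. With the restrictions `ρ : V → R`
of `α β + x` and `ι : R → V`: `ρ ι = A B + x`. `zd (b0 + b1) = zd (B A) = zd (A B) + (w - r)²`, `zd (a0 + a1) = zd (ι ρ) = zd (ρ ι) + (n - r)² =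
zd (A B) + (n - r)²`. (`x` may be `0`.) -/
def S_zdb : Prop := ∀ (K V U0 U1 W : Type) [Field K] [AddCommGroup V] [Module K V]
  [AddCommGroup U0] [Module K U0] [AddCommGroup U1] [Module K U1] [AddCommGroup W] [Module K W]
  [FiniteDimensional K V] [FiniteDimensional K U0] [FiniteDimensional K U1]
  [FiniteDimensional K W] (L : Lk K V U0 U1 W),
  zd (K := K) L.b0 + (Module.finrank K V - Module.finrank K U0) ^ 2 =
    zd (K := K) L.a0 + (Module.finrank K W - Module.finrank K U0) ^ 2 ∧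
  zd (K := K) L.b1 + (Module.finrank K V - Module.finrank K U1) ^ 2 =
    zd (K := K) L.a1 + (Module.finrank K W - Module.finrank K U1) ^ 2 ∧
  zd (K := K) (L.b0 + L.b1) + (Module.finrank K V - Module.finrank K
      (LinearMap.range (L.a0 + L.a1 + algebraMap K (Module.End K V) L.x))) ^ 2 =
    zd (K := K) (L.a0 + L.a1) + (Module.finrank K W - Module.finrank K
      (LinearMap.range (L.a0 + L.a1 + algebraMap K (Module.End K V) L.x))) ^ 2

/-- [kat] Hypotheses `S_zsh`, `S_mx`, `S_sco`, `S_lk`, `S_irb`, `S_dmw`, `S_zdb`. One step of the algorithm of Katz. PROOF. For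
`c = a, b, a + b` let `m_c` be the largest `dim ker (c + y)`, `y : K` (bounded by `n = dim V`), attained at `y_c`; `a' = a + y_a`, `b' = b + y_b`,
`x = y_{a+b} - y_a - y_b`, so `a' + b' + x = a + b + y_{a+b}`. `S_mx`: `n² + 2 ≤ n (m_a + m_b + m_{a+b})`, so `S := m_a + m_b + m_{a+b} ≥ n + 1`.
`Irr a' b'`. If `x = 0`, Scott's lemma for `a', b'` gives `2 n ≤ 3 n - S` (`dim range c' = n - m_c`), a contradiction. `L` from `S_lk a' b' x`.
`u0 = dim range a' = n - m_a`, `u1 = n - m_b`, `r = dim range (a' + b' + x) = n - m_{a+b}`; `S_dmw`: `w = u0 + u1 + r - n = 2 n - S ≤ n - 1`. `S_zdb` and `S_zsh`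
(`zd a' = zd a`, …): `∑ zd(b_i) - w² = ∑ zd(a_i) - n²` because `∑ ((w - u)² - (n - u)²) = w² - n²` for `u = u0, u1, r`, `u0 + u1 + r = n + w`
(cast to `ℤ`). -/
def S_kat : Prop := ∀ (K : Type) [Field K] [IsAlgClosed K] (V : Type) [AddCommGroup V]
  [Module K V] [FiniteDimensional K V] (a b : Module.End K V), Irr a b →
  Module.finrank K V ^ 2 + 2 ≤ zd (K := K) a + zd (K := K) b + zd (K := K) (a + b) →
  2 ≤ Module.finrank K V →
  ∃ (x0 x1 : K) (U0 U1 : Submodule K V) (W : Submodule K (U0 × U1)) (L : Lk K V U0 U1 W),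
    L.a0 = a + algebraMap K (Module.End K V) x0 ∧ L.a1 = b + algebraMap K (Module.End K V) x1 ∧
    Module.finrank K W < Module.finrank K V ∧ Irr L.b0 L.b1 ∧
    Module.finrank K W ^ 2 + 2 ≤ zd (K := K) L.b0 + zd (K := K) L.b1 + zd (K := K) (L.b0 + L.b1)

/-! ## Part C: the transfer rule -/

/-- [stp] Hypotheses `S_inv`, `S_trg`, `S_fac`, `S_shf`, `S_im1`, `S_im2`. The transfer rule. PROOF. Notation: `e = inl fst`, `f = inr snd`
on `X = U0 × U1`, `α = p0.coprod p1`, `β = r0.prod r1`, `M = β α`, so `a0 = α e β`, `a1 = α f β`, `b0 = be e al`, `b1 = be f al`,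
`g = G k N e f M = G k N e f (M + x)` (`S_inv`), `j0 = be inl`, `s0 = fst al`, `j1 = be inr`, `s1 = snd al`. Let `n0, n1, n2` be the
maps for `(b0, b1)`. (i) `n0` commutes with `b0 = j0 s0`, `s0` surjective, `j0` injective: there is `c0` on `U0` with `n0 j0 = j0 c0`; `c1` similarly.
By `S_im1` (for `ι = j0`, `ρ = s0`): `Cnd (s0 j0) c0` and `c0 s0 = s0 n0`; `s0 j0 = r0 p0 + x`, so `Cnd (r0 p0) c0` (`S_shf` with `-x`). `c = c0 × c1` on `X`.
(ii) `S_fac` for `(be, al)` (`al be = M + x`): `φ_0 be e + φ_1 be f = be g`, `e al φ_0 + f al φ_1 = g al`, with `φ_i = n_i - n2` (at `(b0, b1)`); and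
`n0 be e = be e c`, `n1 be f = be f c`, `e al n0 = c e al`, `f al n1 = c f al`. So `be c - n2 be = be g`, `c al - al n2 = g al`: `h := c - g` satisfies
`be h = n2 be`, `h al = al n2`, so `h` commutes with `al be = M + x` and with `M`. (iii) `ker α = ker M` (`β` injective) is `h`-invariant, `α` is
surjective: there is `m2` on `V` with `m2 α = α h`; `β m2 α = M h = h M = h β α`, so `β m2 = h β`. Put `m_i = φ_i(a0, a1) + m2`. `S_fac` for `(α, β)`:
`(m0 - m2) α e + (m1 - m2) α f = α g`, so `m0 α e + m1 α f = α (h + g) = α c`, so `m0 p0 = p0 c0`, `m1 p1 = p1 c1`; and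
`e β m0 + f β m1 = (h + g) β = c β`, so `r0 m0 = c0 r0`, `r1 m1 = c1 r1`. (iv) traces: `tr c0 = tr c1 = 0` (`q = 1` in `Cnd`), `tr g = 0` (`S_trg`, `τ = LinearMap.trace`), so
`tr h = 0`. `S_im2` with `ι = al`, `ρ = be`, `mV = h`, `mU = n2` (`be al = b0 + b1`): `Cnd (M + x) h`, so `Cnd M h` (`S_shf`); `S_im1` with `ι = β`, `ρ = α`,
`mV = h`, `mU = m2`: `Cnd (α β) m2`, `α β = a0 + a1`, so `tr m2 = 0`. `tr m_i = tr φ_i + tr m2 = 0` (`Pot.tr`). `S_im2` with `ι = p_i`, `ρ = r_i`, `mV = m_i`,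
`mU = c_i`: `Cnd a_i m_i`. -/
def S_stp : Prop := ∀ (K V U0 U1 W : Type) [Field K] [CharZero K] [AddCommGroup V] [Module K V]
  [AddCommGroup U0] [Module K U0] [AddCommGroup U1] [Module K U1] [AddCommGroup W] [Module K W]
  [FiniteDimensional K V] [FiniteDimensional K U0] [FiniteDimensional K U1]
  [FiniteDimensional K W] (k : List Bool → K) (N : ℕ) (L : Lk K V U0 U1 W), Pot k N →
  Tri k N L.b0 L.b1 → Tri k N L.a0 L.a1

/-- [tri] Hypotheses `S_kat`, `S_stp`, `S_shf`. PROOF. Strong induction on `dim V` (for all `V`, `a`, `b`). `dim V ≤ 1`: `a = x`, `b = y` are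
scalars; `φ_i (x, y) = φ_i (0 + x, 0 + y) = φ_i (0, 0) = 0` (`Pot.tw`, `Pot.one`), so `m_i = 0` do (`Cnd c 0`: the trace of `0` is `0`). `dim V ≥ 2`: `L` from
`S_kat`; induction for `(L.b0, L.b1)`; `S_stp`; and from `(a + x0, b + x1)` to `(a, b)` with the same `m_i`: `Pot.tw`, `S_shf`
(`a + b = (a + x0) + (b + x1) + (- x0 - x1)`). -/
def S_tri : Prop := ∀ (K : Type) [Field K] [IsAlgClosed K] [CharZero K] (V : Type) [AddCommGroup V]
  [Module K V] [FiniteDimensional K V] (a b : Module.End K V), Irr a b →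
  Module.finrank K V ^ 2 + 2 ≤ zd (K := K) a + zd (K := K) b + zd (K := K) (a + b) →
  ∀ (k : List Bool → K) (N : ℕ), Pot k N → Tri k N a b

/-- [smp] No hypotheses. PROOF. `c = a - x`. The generalised eigenspace of `x` has dimension 1 (`LinearMap.finrank_maxGenEigenspace_eq` or similar
in Mathlib), so `ker c` has dimension 1, `ker c ∩ range c = ⊥` and `V = ker c ⊕ range c`. `m` preserves both (it commutes with `a`); `tr m = 0` (`q = 1`) and
the trace on `range c` is `0` (`q = X - x`), so the trace on `ker c` is `0` (`LinearMap.trace_eq_sum_trace_restrict`, or the additivity of [im2]);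
`ker c` is a line, so `m = 0` on `ker c`. If `η a = x η` then `η = 0` on `range c`, and `m` maps `range c` to itself and `ker c` to `0`: `η m = 0`. -/
def S_smp : Prop := ∀ (K V : Type) [Field K] [AddCommGroup V] [Module K V] [FiniteDimensional K V]
  (a m : Module.End K V) (x : K), Cnd a m → (LinearMap.charpoly a).rootMultiplicity x = 1 →
  (∀ v : V, a v = x • v → m v = 0) ∧ ∀ η : V →ₗ[K] K, η ∘ₗ a = x • η → η ∘ₗ m = 0

/-! ## Part D: flows -/

/-- [flo] No hypotheses. PROOF. `E : QX →ₐ[ℚ] Matrix` the evaluation `X0 ↦ A`, `X1 ↦ B`. For all `g`: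
`E (actL φ g) = m1 * E g - E g * m0`: for `g = word w` by induction: `actL φ 1 = φ` (`RT.actL_apply`, `FL.act`), `actL φ (X0 g) = φ X0 g + X0 der g`
`= (φ X0 - X0 φ) g + X0 actL φ g`, `actL φ (X1 g) = X1 actL φ g` (`der` is the derivation with `x₀ ↦ 0`, `x₁ ↦ [x₁, φ]`), and `E φ = m1 - m0`:
`((m1 - m0) A - A (m1 - m0)) E g + A (m1 E g - E g m0) = m1 A E g - A E g m0` as `m0 A = A m0`; `B (m1 E g - E g m0) = m1 B E g - B E g m0`. So
`η E(actL φ g) v = 0`. `expP`: `(expP length T Z w).eval c = ∑_m c^m (m!)⁻¹ • pair Z (T^m (word w))` (finite sum; [expc]). For `m ≥ 1`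
`∑_{|w| = N} (η w v) • pair Z (T^m (word w)) = 0`: `T^m` is adjoint to `(actL φ)^m` (induction), so for every word `a` the coefficient of `Z a` is
`∑_{|w| = N} (η w v) coeff ((actL φ)^m (word a)) w`, and `(actL φ)^m (word a)` is homogeneous of degree `|a| + m d`, so this is `0` if `N ≠ |a| + m d` and
`η E((actL φ)^m (word a)) v = 0` if `N = |a| + m d`. -/
def S_flo : Prop := ∀ (K k : Type) [Field K] [CharZero K] [CommRing k] [Algebra K k] [Algebra ℚ k]
  (n : ℕ) (A B m0 m1 : Matrix (Fin n) (Fin n) K) (η v : Fin n → K) (d : ℕ) (φ : QX), 1 ≤ d →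
  IsHom d φ → m0 * A = A * m0 → m1 * B = B * m1 →
  FreeAlgebra.lift ℚ (fun b : Bool => cond b B A) φ = m1 - m0 →
  Matrix.mulVec m0 v = 0 → Matrix.vecMul η m1 = 0 →
  ∀ (T : Module.End ℚ QX) (Z : List Bool → k) (c : k) (N : ℕ), RT.IsAdj (RT.actL φ) T →
    BZ.SW N (fun w => (η ⬝ᵥ Matrix.mulVec (BZ.ev A B w) v) • (RT.expP List.length T Z w).eval c) =
      BZ.SW N (fun w => (η ⬝ᵥ Matrix.mulVec (BZ.ev A B w) v) • Z w)

/-- [trd] No hypotheses. The torsor theorem for solutions with the same depth one part. PROOF. As `RT.p_step`, `RT.p_tor` (files `RT/P/step.lean`,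
`RT/P/tor.lean`; all pieces of RT are proved, see `RT/Fin.lean`), with the additional clause `∀ j, Z'' (x₀^j x₁) = Z' (x₀^j x₁)` in the induction. Each `φ_j` comes from
`RT.dif` with a functional `L j` and `coeff φ_j (x₀^(n-1) x₁) = L j (Z - Z')(x₀^(n-1) x₁) = L j 0 = 0`, so only flows without depth one part are
used; such a flow does not change the values at `x₀^i x₁`: `T (word (x₀^i x₁)) = coeff φ_j (x₀^i x₁) • 1 = 0` (`RT.p_adx` (3); for `i ≠ n - 1` the
coefficient is `0` by homogeneity) and `RT.p_expc`. -/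
def S_trd : Prop := ∀ {k : Type} [CommRing k] [Algebra ℚ k] (P : (List Bool → k) → Prop), InvtD P →
  ∀ (γ γ' : ℕ → k) (Z Z' : List Bool → k), Cyc.RegDS γ Z → Cyc.RegDS γ' Z' →
  (∀ j : ℕ, Z (List.replicate j false ++ [true]) = Z' (List.replicate j false ++ [true])) →
  P Z' → ∀ N : ℕ,
  ∃ (γ'' : ℕ → k) (Z'' : List Bool → k), Cyc.RegDS γ'' Z'' ∧ P Z'' ∧
    ∀ w : List Bool, w.length ≤ N → Z w = Z'' w

/-! ## Part E: matrices -/

/-- [mat] Hypotheses `S_pot`, `S_tri`. PROOF. Let `a, b` be `Matrix.toLin' A`, `Matrix.toLin' B` on `V = Fin n → K`; `Irr a b`; `zd a = zd A`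
(`Matrix.toLinAlgEquiv'` maps the centraliser of `A` onto that of `a`). `S_tri` for `k w = (K ψ w : K)` and every `N` gives `m_i^N`; `m_i = ∑_{N ≤ D} m_i^N`, where all
words of `ψ` (so of `sgn ψ`, `rot ψ`) have length `≤ D`. `Cnd a` is additive in `m` (`m` and `m'` preserve the range; the trace is additive). `coeff (sgn ψ) w =
K ψ (true :: w) - K ψ (false :: w)`, `coeff (rot ψ) w = K ψ (true :: w)` (definitions `BZ.K`, `ph0`, `ph1`), so `∑_{N ≤ D} (φ_1 - φ_0) = (sgn ψ)(a, b)`, which is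
the evaluation of `ψ` at `X0 ↦ a`, `X1 ↦ -b`; `∑_N φ_1 = (rot ψ)(a, b)`, the evaluation of `ψ` at `X0 ↦ -a-b`, `X1 ↦ -b`. (Evaluation at matrices; a polynomial
is the sum of its coefficients times words: `BZ.tw_coeff` / `tn_EV_coeff` or `linear_ext`.) -/
def S_mat : Prop := ∀ (K : Type) [Field K] [IsAlgClosed K] [CharZero K] (n : ℕ)
  (A B : Matrix (Fin n) (Fin n) K),
  (∀ U : Submodule K (Fin n → K), (∀ x ∈ U, Matrix.mulVec A x ∈ U) →
    (∀ x ∈ U, Matrix.mulVec B x ∈ U) → U = ⊥ ∨ U = ⊤) →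
  n ^ 2 + 2 ≤ zd (K := K) A + zd (K := K) B + zd (K := K) (A + B) →
  ∀ ψ ∈ dm0, (∀ j : ℕ, coeff ψ (List.replicate j false ++ [true]) = 0) →
  ∃ m0 m1 m2 : Matrix (Fin n) (Fin n) K, Cnd (Matrix.toLin' A) (Matrix.toLin' m0) ∧
    Cnd (Matrix.toLin' B) (Matrix.toLin' m1) ∧ Cnd (Matrix.toLin' (A + B)) (Matrix.toLin' m2) ∧
    FreeAlgebra.lift ℚ (fun b : Bool => cond b (-B) A) ψ = m1 - m0 ∧
    FreeAlgebra.lift ℚ (fun b : Bool => cond b (-B) (-A - B)) ψ = m1 - m2

end Pool.Agent.MP_a57f33_nt.RG
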