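import Mathlib

/-!
Definitions for the result `RigidGamma` (`MP_a57f33_nt`). Words in `x₀`, `x₁` are lists of `Bool`, `false` is `x₀`,
`true` is `x₁`.
-/

namespace Pool.Agent.MP_a57f33_nt.RigidGamma

section

variable {K : Type} [Field K] {n : ℕ}

/-- The dimension of the centraliser of a matrix. -/
noncomputable def cdim (A : Matrix (Fin n) (Fin n) K) : ℕ :=
  Module.finrank K (Subalgebra.centralizer K ({A} : Set (Matrix (Fin n) (Fin n) K)))

/-- The Fuchsian system with the residues `A`, `B`, `-A - B` at `0`, `1`, `∞` is irreducible and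
rigid: `A` and `B` have no common invariant subspace, and
`dim Z(A) + dim Z(B) + dim Z(A + B) ≥ n² + 2` for the centralisers. -/
def IrreducibleRigid (A B : Matrix (Fin n) (Fin n) K) : Prop :=
  (∀ U : Submodule K (Fin n → K), (∀ x ∈ U, Matrix.mulVec A x ∈ U) →
    (∀ x ∈ U, Matrix.mulVec B x ∈ U) → U = ⊥ ∨ U = ⊤) ∧
  n ^ 2 + 2 ≤ cdim A + cdim B + cdim (A + B)

/-- `e` is not zero and spans the image of a polynomial in `A`. -/
def Marked (A : Matrix (Fin n) (Fin n) K) (e : Fin n → K) : Prop :=
  e ≠ 0 ∧ ∃ q : Polynomial K, LinearMap.range (Matrix.toLin' (Polynomial.aeval A q)) =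
    Submodule.span K {e}

/-- The value of a word at `x₀ = A`, `x₁ = B`. -/
def val (A B : Matrix (Fin n) (Fin n) K) (w : List Bool) : Matrix (Fin n) (Fin n) K :=
  (w.map fun b => cond b B A).prod

/-- The matrix entry `f w(A, B) e` of a word. -/
def entry (A B : Matrix (Fin n) (Fin n) K) (e f : Fin n → K) (w : List Bool) : K :=
  dotProduct f (Matrix.mulVec (val A B w) e)

variable {k : Type} [CommRing k] [Algebra K k]

/-- The connection coefficient: the series `∑_w Z(w) (f w(A, B) e) z^|w|`. -/
noncomputable def conn (A B : Matrix (Fin n) (Fin n) K) (e f : Fin n → K) (Z : List Bool → k) :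
    PowerSeries k :=
  PowerSeries.mk fun N => ∑ w : Fin N → Bool, entry A B e f (List.ofFn w) • Z (List.ofFn w)

/-- The series `γ(t z) = ∑_n γ_n t^n z^n`. -/
noncomputable def gam (γ : ℕ → k) (t : K) : PowerSeries k := PowerSeries.mk fun i => t ^ i • γ i

end

end Pool.Agent.MP_a57f33_nt.RigidGamma
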