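import Pool.Agent.Lib.MP_a57f33_nt.RG.Gam
import Pool.Agent.Lib.MP_a57f33_nt.RG.RDefs

/-!
The result `RigidGamma` (`MP_a57f33_nt`): comparison of definitions and the proof.
-/

namespace Pool.Agent.MP_a57f33_nt.RigidGamma

open Pool.Agent.MP_a57f33_nt Pool.Agent.MP_a57f33_nt.RG

theorem sw_sum {M : Type} [AddCommMonoid M] (N : ℕ) : ∀ F : List Bool → M,
    BZ.SW N F = ∑ w : Fin N → Bool, F (List.ofFn w) := by
  induction N with
  | zero =>
    intro F
    simp [BZ.SW]
  | succ N ih =>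
    intro F
    rw [BZ.SW, ih, ih, ← (Fin.consEquiv (fun _ : Fin (N + 1) => Bool)).sum_comp,
      Fintype.sum_prod_type, Fintype.sum_bool, add_comm]
    simp [Fin.consEquiv, List.ofFn_succ]

variable {K : Type} [Field K] {n : ℕ}

theorem irr_iff {A B : Matrix (Fin n) (Fin n) K} : IrreducibleRigid A B ↔
    (∀ U : Submodule K (Fin n → K), (∀ x ∈ U, Matrix.mulVec A x ∈ U) →
      (∀ x ∈ U, Matrix.mulVec B x ∈ U) → U = ⊥ ∨ U = ⊤) ∧
    n ^ 2 + 2 ≤ zd (K := K) A + zd (K := K) B + zd (K := K) (A + B) := Iff.rfl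

theorem marked_iff {A : Matrix (Fin n) (Fin n) K} {e : Fin n → K} :
    Marked A e ↔ RG.Marked A e := Iff.rfl

variable {k : Type} [CommRing k] [Algebra K k]

theorem conn_eq (A B : Matrix (Fin n) (Fin n) K) (e f : Fin n → K) (Z : List Bool → k) :
    conn A B e f Z = FM A B e f Z := by
  ext N
  simp only [conn, FM, PowerSeries.coeff_mk]
  rw [sw_sum]
  rfl

theorem gam_eq (γ : ℕ → k) : (gam γ : K → PowerSeries k) = gs γ := rfl

theorem main (K : Type) [Field K] [IsAlgClosed K] [CharZero K] (n : ℕ)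
    (A B : Matrix (Fin n) (Fin n) K) (h : IrreducibleRigid A B) (e f : Fin n → K)
    (he : Marked A e) (hf : Marked B.transpose f) :
    ∃ α β : List K, α.length = β.length ∧ α.sum = β.sum ∧
      (∀ (k : Type) [CommRing k] [Algebra K k] (γ : ℕ → k) (Z : List Bool → k), Cyc.RegDS γ Z →
        conn A (-B) e f Z * (β.map (gam γ)).prod =
          PowerSeries.C (algebraMap K k (dotProduct f e)) * (α.map (gam γ)).prod ∧
        conn A (-B) e f (fun w => Z (dualWord w)) * (β.map (gam γ)).prod =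
          PowerSeries.C (algebraMap K k (dotProduct f e)) * (α.map (gam γ)).prod) ∧
      ∀ ψ ∈ dm0, ∀ N : ℕ, 1 ≤ N →
        ∑ w : Fin N → Bool, entry A (-B) e f (List.ofFn w) * ((coeff ψ (List.ofFn w) : ℚ) : K) =
          dotProduct f e * (((-1) ^ (N - 1) / (N : K)) *
            ((coeff ψ (List.replicate (N - 1) false ++ [true]) : ℚ) : K)) *
              ((α.map (· ^ N)).sum - (β.map (· ^ N)).sum) := by
  obtain ⟨α, β, h1, h2, h3⟩ := gam_gm3 K n A B h.1 h.2 e f he hf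
  refine ⟨α, β, h1, h2, ?_, ?_⟩
  · intro k _ _ γ Z hZ
    rw [conn_eq, conn_eq, gam_eq]
    exact ⟨h3 k γ Z (gam_TR K hZ), h3 k γ _ (p_dul K k γ Z (gam_TR K hZ))⟩
  · intro ψ hψ N hN
    have h4 := gam_dmf K n A (-B) e f α β (fun γ Z hZ => h3 (DualNumber K) γ Z (gam_TR K hZ))
      ψ hψ N hN
    rw [sw_sum] at h4
    exact h4

end Pool.Agent.MP_a57f33_nt.RigidGamma
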