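import Pool.Agent.Lib.MP_a57f33_nt.RG.Stm
import Pool.Agent.Lib.MP_a57f33_nt.CycDS

/-!
# Project RG (MP_a57f33_nt), third part: the Gamma product formula for rigid local systems

GOAL (`S_gma`). `K` algebraically closed of characteristic 0, `A, B` an irreducible rigid pair of matrices, `e` (`f`) a
vector spanning the image of a polynomial in `A` (in the transpose of `B`), for example an eigenvector for a simple eigenvalue.
There are finitely many `α_i, β_i ∈ K`, as many `α` as `β` and with the same sum, such that for every solution `Z` of the regularised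
double shuffle relations in a commutative `K`-algebra, with `γ(t) = ∑ γ_n t^n`:
`(∑_w (f w(A,-B) e) Z(w) z^|w|) ∏_i γ(β_i z) = (f e) ∏_i γ(α_i z)`.
(Oshima's connection formula: `γ(t) = exp(∑_{n ≥ 2} (-1)^(n-1) ζ(n) t^n / n)` is `e^(..) Γ(1+t)^(-1)` or its inverse.)

The main point is the TRANSFER RULE `S_trf`. Conventions as in `RG/Stm.lean`; the piece `[xxx]` proves `p_xxx` in
`RG/P/xxx.lean`, import `Pool.Agent.Lib.MP_a57f33_nt.RG.Stm3`.
-/

namespace Pool.Agent.MP_a57f33_nt.RG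

open Pool.Agent.MP_a57f33_nt

/-- Sum over the words of weight `N` in the letters `y_n`. -/
def SY {M : Type} [AddCommMonoid M] : ℕ → (List ℕ+ → M) → M
  | 0, F => F []
  | n + 1, F => ∑ j : Fin (n + 1), SY (n - (j : ℕ)) (fun u => F (Nat.succPNat (j : ℕ) :: u))
termination_by n => n
decreasing_by omega

/-- `h_{u_1 - 1} h_{u_2 - 1} ⋯ h_{u_r - 1} y`. -/
def hv {K U : Type} [Field K] [AddCommGroup U] [Module K U] (h : ℕ → Module.End K U) (y : U) :
    List ℕ+ → U
  | [] => y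
  | n :: u => h ((n : ℕ) - 1) (hv h y u)

section ser

variable {K k V : Type} [Field K] [CommRing k] [Algebra K k] [AddCommGroup V] [Module K V]

/-- The series `∑_w η(w(a, b) v) Z(w) z^|w|`. -/
noncomputable def FV (a b : Module.End K V) (v : V) (η : V →ₗ[K] K) (Z : List Bool → k) :
    PowerSeries k :=
  PowerSeries.mk fun N => BZ.SW N fun w => (η (BZ.ev a b w v)) • Z w

/-- The series `∑_u η(h_{u_1 - 1} ⋯ h_{u_r - 1} y) Y(u) z^(weight of u)`. -/
noncomputable def YV (h : ℕ → Module.End K V) (y : V) (η : V →ₗ[K] K) (Y : List ℕ+ → k) :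
    PowerSeries k :=
  PowerSeries.mk fun N => SY N fun u => (η (hv h y u)) • Y u

/-- The series `γ(t z)`. -/
noncomputable def gs (γ : ℕ → k) (t : K) : PowerSeries k :=
  PowerSeries.mk fun n => t ^ n • γ n

/-- `v` spans the image of a polynomial in `a`. -/
def EV (a : Module.End K V) (v : V) : Prop :=
  v ≠ 0 ∧ ∃ q : Polynomial K, LinearMap.range (Polynomial.aeval a q) = Submodule.span K {v}

/-- `η` spans the image of a polynomial in the transpose of `b`. -/
def EF (b : Module.End K V) (η : V →ₗ[K] K) : Prop :=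
  η ≠ 0 ∧ ∃ q : Polynomial K, LinearMap.ker (Polynomial.aeval b q) = LinearMap.ker η

end ser

/-! ## Part F: series -/

/-- [swy] No hypotheses. PROOF. For all `F : List Bool → M` and `N` with `F (w ++ [false]) = 0` for all `w`: `SW N F` is the sum over `j < N` of
`SW (N - j - 1) (fun w => F (0^j 1 w))`, plus `F (0^N)`, which is `0` for `N ≥ 1` (induction on `N`, applied to `F (false :: ·)`; note that `F (false :: ·)` again
vanishes on the words `w ++ [false]`, but not on `[]`: `F [false] = F ([] ++ [false]) = 0`). Then strong induction on `N`, since `toX (Nat.succPNat j :: u) = 0^j 1 (toX u)`. -/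
def S_swy : Prop := ∀ (M : Type) [AddCommMonoid M] (N : ℕ) (F : List Bool → M),
  (∀ w : List Bool, F (w ++ [false]) = 0) → BZ.SW N F = SY N (fun u => F (toX u))

/-- [tws] No hypotheses. Twist invariance. PROOF. It suffices to change one of `a`, `b`; say `a` to `a + x` (`b` is the same with the other letter). Let `c r w ∈ End V` be
the coefficient of `x^r` in `ev (a + x) b w`: `c 0 [] = 1`, `c (r+1) [] = 0`, `c r (true :: w) = b c r w`, `c r (false :: w) = a c r w + (if r ≥ 1 then c (r-1) w else 0)`;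
`ev (a + x) b w = ∑_{r ≤ |w|} x^r c r w`. CLAIM for every `G : List Bool → k` (`k` the target ring), `r ≥ 1`, `N ≥ 1`: `∑_{|w| = N} r (η (c r w v)) G(w) =
∑_{|w| = N-1} (η (c (r-1) w v)) ∑_{w' ∈ ins w} G(w')`, where `ins w` is the list of all words obtained by inserting the letter `false` in `w` (also at the ends):
`insK false w G` of `CycDS.lean`; it holds more generally with `η (c r w v)` replaced by `f (c r w)`, `f : End V → K` linear, and it is proved by induction on `N` for all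
`f`, `G`, `r` (as in `S_inv`). For `G = Z` the right side is `0` by `RegDS.ins_zero` (`RegDS.ins_one`), so `∑_w (η (c r w v)) Z(w) = 0` for `r ≥ 1`. -/
def S_tws : Prop := ∀ (K k V : Type) [Field K] [CharZero K] [CommRing k] [Algebra K k]
  [AddCommGroup V] [Module K V] (γ : ℕ → k) (Z : List Bool → k), Cyc.RegDS γ Z →
  ∀ (a b : Module.End K V) (v : V) (η : V →ₗ[K] K) (x y : K),
    FV (a + algebraMap K (Module.End K V) x) (b + algebraMap K (Module.End K V) y) v η Z =
      FV a b v η Z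

/-- [stz] Hypothesis `S_swy`. PROOF. `F w = (η (ev a b w v)) • Z w` vanishes on `w ++ [false]` (`a v = 0`), so `FV` is `∑_u (η (hv h v u)) Z(toX u) z^|u|`, `h j = a^j * b`
(`S_swy`; `ev a b (toX u) v = hv h v u` by induction). `star γ Z u = ∑_i [u = 1^i u'] γ_i Z(toX u')`, and `η (hv h v (1^i u')) = η (b^i (hv h v u')) = t^i η (hv h v u')`. So the `N`-th
coefficient of `YV` is `∑_{i ≤ N} t^i γ_i ∑_{|u'| = N - i} (η (hv h v u')) Z(toX u')`; formally: for all `Φ : ℕ → List ℕ+ → M`,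
`SY N (fun u => ∑_{i ≤ |u|} if u.take i = 1^i then Φ i (u.drop i) else 0) = ∑_{i ≤ N} SY (N - i) (Φ i)` (induction on `N`: the term `i = 0`, and the terms `i ≥ 1`, which
occur only for the first letter `1`). -/
def S_stz : Prop := ∀ (K k V : Type) [Field K] [CommRing k] [Algebra K k]
  [AddCommGroup V] [Module K V] (γ : ℕ → k) (Z : List Bool → k)
  (a b : Module.End K V) (v : V) (η : V →ₗ[K] K) (t : K), a v = 0 → η ∘ₗ b = t • η →
    gs γ t * FV a b v η Z = YV (fun j => a ^ j * b) v η (Cyc.star γ Z)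

/-- [stf] No hypotheses. The stuffle product with `(1 - t y₁)^(-1)`. PROOF. Write `Y = star γ Z`. `Y (1^n) = γ n`: `star` has the terms `γ_i Z(1^(n-i))`, and
`Z(1^m) = 0` for `m ≥ 1` (`m Z(1^m) = Z(1) Z(1^(m-1))` by the shuffle relation, or `RegDS.ins_one`; `k` is a `ℚ`-algebra). So `γ_n t^n = t^n Y(1^n)` and by `stuffle_rel` the
`N`-th coefficient of the left side is `A_N(η; Y)`, where for a functional `η` and `G : List ℕ+ → k`: `A_N(η; G) = ∑_{n ≤ N} SY (N - n) (fun u => t^n (η (hv h y u)) ∑_{v ∈ stuffle u 1^n} G(v))`.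
Let `B_N(η; G) = SY N (fun u => (η (hv h' y u)) G(u))`. CLAIM `A_N(η; G) = B_N(η; G)` for all `η`, `G`, by strong induction on `N`. For `N = 0` both are `η(y) G([])`. For `N ≥ 1`
the recursion of `stuffle` (first letter from `u`, from `1^n`, or merged; for `u = []` or `n = 0` only one of them) gives, with `a` the first letter (a positive integer):
`A_N(η; G) = ∑_{a ≤ N} A_{N-a}(η h_{a-1}; G(a ·)) + t A_{N-1}(η; G(1 ·)) + t ∑_{a ≤ N-1} A_{N-a-1}(η h_{a-1}; G((a+1) ·))`, and `B_N(η; G) = ∑_{a ≤ N} B_{N-a}(η h'_{a-1}; G(a ·))` with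
`h'_0 = h_0 + t`, `h'_j = h_j + t h_{j-1}`. -/
def S_stf : Prop := ∀ (K k V : Type) [Field K] [CharZero K] [CommRing k] [Algebra K k]
  [AddCommGroup V] [Module K V] (γ : ℕ → k) (Z : List Bool → k), Cyc.RegDS γ Z →
  ∀ (h : ℕ → Module.End K V) (y : V) (η : V →ₗ[K] K) (t : K),
    YV h y η (Cyc.star γ Z) * gs γ t =
      YV (fun j => h j + t • (if j = 0 then 1 else h (j - 1))) y η (Cyc.star γ Z)

/-- [trf] Hypotheses `S_tws`, `S_stz`, `S_stf`. THE TRANSFER RULE. PROOF. Let `v = p0 u`, `η = ζ r1`. By `S_tws` `FV a0 (-a1) v η Z = FV (a0 - λ) (-a1) v η Z`;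
`(a0 - λ) v = p0 (r0 p0 u - λ u) = 0`, `η (-a1) = - ζ r1 p1 r1 = - ν η`. `S_stz` with `t = -ν`: `gs γ (-ν) * FV = YV h v η Y`, `h j = (a0 - λ)^j (-a1)`, `Y = star γ Z`. Let
`g j = - r1 (a0 - λ)^j p1 ∈ End U1`; `r1 h_j = g_j r1`, so `η (hv h v w) = ζ (hv g (r1 v) w)`. `S_stf` with `t = λ`: `YV g (r1 v) ζ Y * gs γ λ = YV g' (r1 v) ζ Y` with `g'_0 = g_0 + λ =
λ - r1 p1`, and for `j ≥ 1`: `g'_j = g_j + λ g_{j-1} = - r1 (a0 - λ)^(j-1) (a0 - λ + λ) p1 = - r1 (a0 - λ)^(j-1) p0 r0 p1 = - r1 p0 (r0 p0 - λ)^(j-1) r0 p1` (`(a0 - λ) p0 = p0 (r0 p0 - λ)`).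
The same for `(b0, b1)`, `v' = be (inl u)`, `η' = ζ s1`, `s_i` the components of `al`, `j_i` those of `be`, with `λ + x`, `ν + x` in the place of `λ, ν`: `b0 = j0 s0`, `b1 = j1 s1`, and
(`al be = β α + x`) `s0 j0 = r0 p0 + x`, `s1 j1 = r1 p1 + x`, `s0 j1 = r0 p1`, `s1 j0 = r1 p0`; so `g'_0 = λ + x - (r1 p1 + x)`, `g'_j = - s1 j0 (s0 j0 - λ - x)^(j-1) s0 j1` are THE SAME
as before, and `s1 v' = s1 j0 u = r1 p0 u = r1 v`. -/
def S_trf : Prop := ∀ (K k V U0 U1 W : Type) [Field K] [CharZero K] [CommRing k] [Algebra K k]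
  [AddCommGroup V] [Module K V] [AddCommGroup U0] [Module K U0] [AddCommGroup U1] [Module K U1]
  [AddCommGroup W] [Module K W] (L : Lk K V U0 U1 W) (γ : ℕ → k) (Z : List Bool → k),
  Cyc.RegDS γ Z → ∀ (u : U0) (ζ : U1 →ₗ[K] K) (lam nu : K), L.r0 (L.p0 u) = lam • u →
  ζ ∘ₗ L.r1 ∘ₗ L.p1 = nu • ζ →
    FV L.a0 (-L.a1) (L.p0 u) (ζ ∘ₗ L.r1) Z * (gs γ lam * gs γ (-nu)) =
      FV L.b0 (-L.b1) (L.be (LinearMap.inl K U0 U1 u))
        (ζ ∘ₗ LinearMap.snd K U0 U1 ∘ₗ L.al) Z * (gs γ (lam + L.x) * gs γ (-(nu + L.x)))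

/-! ## Part G: the algorithm of Katz with marked vectors -/

/-- [kac] Hypotheses `S_zsh`, `S_mx`, `S_sco`, `S_lk`, `S_irb`, `S_dmw`, `S_zdb`. As `S_kat` (see its proof and `RG/P/kat.lean`), but for arbitrary eigenvalues
`-x0`, `-x1`, `-x2` of `a`, `b`, `a + b` with eigenspaces of maximal dimension. -/
def S_kac : Prop := ∀ (K : Type) [Field K] [IsAlgClosed K] (V : Type) [AddCommGroup V]
  [Module K V] [FiniteDimensional K V] (a b : Module.End K V), Irr a b →
  Module.finrank K V ^ 2 + 2 ≤ zd (K := K) a + zd (K := K) b + zd (K := K) (a + b) →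
  2 ≤ Module.finrank K V → ∀ x0 x1 : K,
  (∀ y : K, Module.finrank K (LinearMap.ker (a + algebraMap K (Module.End K V) y)) ≤
    Module.finrank K (LinearMap.ker (a + algebraMap K (Module.End K V) x0))) →
  (∀ y : K, Module.finrank K (LinearMap.ker (b + algebraMap K (Module.End K V) y)) ≤
    Module.finrank K (LinearMap.ker (b + algebraMap K (Module.End K V) x1))) →
  ∃ (U0 U1 : Submodule K V) (W : Submodule K (U0 × U1)) (L : Lk K V U0 U1 W),
    L.a0 = a + algebraMap K (Module.End K V) x0 ∧ L.a1 = b + algebraMap K (Module.End K V) x1 ∧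
    Module.finrank K W < Module.finrank K V ∧ Irr L.b0 L.b1 ∧
    Module.finrank K W ^ 2 + 2 ≤ zd (K := K) L.b0 + zd (K := K) L.b1 + zd (K := K) (L.b0 + L.b1)

/-- [chs] No hypotheses. PROOF. For a polynomial `q` and `y ∈ K` with `q(-y) ≠ 0` the generalised eigenspace `V_{-y}` of `a` for `-y` is contained in the range of `q(a)` (it is invariant, `a + y`
is nilpotent on it, so `q(a) = q(-y) + nilpotent` is invertible on it). Let `x0` be such that `m = dim ker (a + x0)` is maximal. (1) `EV a v`, `range (q(a)) = K v`. If `q(-x0) = 0` take it. If not,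
`V_{-x0} ⊆ K v`, so it is `K v`, `m = 1`; since `dim V ≥ 2` there is another eigenvalue `-x0'` (`V` is the direct sum of the generalised eigenspaces: `Module.End.iSup_maxGenEigenspace_eq_top`), `dim ker (a + x0') = 1` is also maximal, and
`q(-x0') = 0`, otherwise `V_{-x0'} ⊆ K v = V_{-x0}` (they are independent). (2) `ker (q(b)) = ker η`, `η ≠ 0`: the range of `q(b)` has dimension 1; the same argument with this line in the place of `K v`.
(Polynomials with `q(-x0) = 0`.) -/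
def S_chs : Prop := ∀ (K : Type) [Field K] [IsAlgClosed K] (V : Type) [AddCommGroup V]
  [Module K V] [FiniteDimensional K V] (a : Module.End K V) (q : Polynomial K),
  2 ≤ Module.finrank K V → Module.finrank K (LinearMap.range (Polynomial.aeval a q)) = 1 →
  ∃ x0 : K, q.eval (-x0) = 0 ∧
    ∀ y : K, Module.finrank K (LinearMap.ker (a + algebraMap K (Module.End K V) y)) ≤
      Module.finrank K (LinearMap.ker (a + algebraMap K (Module.End K V) x0))

/-- [evb] No hypotheses. PROOF. `j0 = be inl`, `s0 = fst al`, `s0 j0 = r0 p0 + x`, `b0 = j0 s0`. `q(0) = 0`: `q = q₁ * X`, `aeval a0 q = p0 ∘ aeval (r0 p0) q₁ ∘ r0`, of range `p0 (range (aeval (r0 p0) q₁))` (`r0` surjective)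
`= K v`. So there is `u` with `p0 u = v`, and `range (aeval (r0 p0) q₁) = K u` (`p0` injective). `r0 p0` commutes with `q₁(r0 p0)`, so it maps `K u` to itself: `r0 p0 u = λ u`. For `q' = (q₁.comp (X - C x)) * X`:
`aeval b0 q' = j0 ∘ aeval (s0 j0) (q₁.comp (X - C x)) ∘ s0 = j0 ∘ aeval (r0 p0) q₁ ∘ s0`, of range `K (j0 u)` (`s0` surjective); `j0 u ≠ 0` (`j0` injective, `u ≠ 0`). -/
def S_evb : Prop := ∀ (K V U0 U1 W : Type) [Field K] [AddCommGroup V] [Module K V]
  [AddCommGroup U0] [Module K U0] [AddCommGroup U1] [Module K U1] [AddCommGroup W] [Module K W]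
  (L : Lk K V U0 U1 W) (v : V) (q : Polynomial K), v ≠ 0 →
  LinearMap.range (Polynomial.aeval L.a0 q) = Submodule.span K {v} → q.eval 0 = 0 →
  ∃ (u : U0) (lam : K), L.p0 u = v ∧ L.r0 (L.p0 u) = lam • u ∧
    EV L.b0 (L.be (LinearMap.inl K U0 U1 u))

/-- [efb] No hypotheses. PROOF. `j1 = be inr`, `s1 = snd al`, `s1 j1 = r1 p1 + x`, `b1 = j1 s1`. `q = q₁ * X`, `aeval a1 q = p1 ∘ aeval (r1 p1) q₁ ∘ r1`; `p1` is injective, so `ker η = ker (q₁(r1 p1) r1) ⊇ ker r1` and there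
is `ζ` with `η = ζ r1` (`r1` surjective), and `ker ζ = ker (q₁(r1 p1))`. This kernel is invariant under `r1 p1`, so `ζ r1 p1` vanishes on `ker ζ` and is a multiple `ν ζ`. For `q' = (q₁.comp (X - C x)) * X`:
`aeval b1 q' = j1 ∘ q₁(r1 p1) ∘ s1`, with the kernel `s1⁻¹ (ker ζ) = ker (ζ s1)` (`j1` injective); `ζ s1 ≠ 0` (`s1` surjective). -/
def S_efb : Prop := ∀ (K V U0 U1 W : Type) [Field K] [AddCommGroup V] [Module K V]
  [AddCommGroup U0] [Module K U0] [AddCommGroup U1] [Module K U1] [AddCommGroup W] [Module K W]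
  (L : Lk K V U0 U1 W) (η : V →ₗ[K] K) (q : Polynomial K), η ≠ 0 →
  LinearMap.ker (Polynomial.aeval L.a1 q) = LinearMap.ker η → q.eval 0 = 0 →
  ∃ (ζ : U1 →ₗ[K] K) (nu : K), ζ ∘ₗ L.r1 = η ∧ ζ ∘ₗ L.r1 ∘ₗ L.p1 = nu • ζ ∧
    EF L.b1 (ζ ∘ₗ LinearMap.snd K U0 U1 ∘ₗ L.al)

/-- [gin] Hypotheses `S_tws`, `S_trf`, `S_kac`, `S_chs`, `S_evb`, `S_efb`. PROOF. Strong induction on `dim V` (for all `V`, `a`, `b`, `v`, `η`). `dim V ≤ 1`: `a = x`, `b = y` are scalars, by
`S_tws` (`a = 0 + x`, `-b = 0 + (-y)`) the series is `FV 0 0 v η Z = C (η v)` (`ev 0 0 w = 0` for `w ≠ []`, `Z [] = 1`); take `α = β = []`. `dim V ≥ 2`: `q`, `q'` from `EV a v`, `EF b η` (`range (q'(b))` has dimension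
`1` since its kernel is the kernel of `η ≠ 0`); `x0`, `x1` from `S_chs`; `L` from `S_kac`; `aeval (a + x0) (q.comp (X - C x0)) = aeval a q`, and `q.comp (X - C x0)` has the value `q(-x0) = 0` at `0`: `S_evb`, `S_efb` give
`u`, `λ`, `ζ`, `ν`. Induction for `(L.b0, L.b1)`, `v' = be (inl u)`, `η' = ζ snd al` gives `α`, `β`; `η' v' = ζ (snd (al (be (inl u)))) = ζ (r1 p0 u) = η v` (`Lk.eq`; `snd (x • (u, 0)) = 0`). By `S_tws` `FV a (-b) v η Z = FV L.a0 (-L.a1) v η Z`
and by `S_trf`: the lists `[λ + x, -(ν + x)] ++ α` and `[λ, -ν] ++ β` do. -/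
def S_gin : Prop := ∀ (K : Type) [Field K] [IsAlgClosed K] [CharZero K] (V : Type) [AddCommGroup V]
  [Module K V] [FiniteDimensional K V] (a b : Module.End K V), Irr a b →
  Module.finrank K V ^ 2 + 2 ≤ zd (K := K) a + zd (K := K) b + zd (K := K) (a + b) →
  ∀ (v : V) (η : V →ₗ[K] K), EV a v → EF b η →
  ∃ α β : List K, α.length = β.length ∧ α.sum = β.sum ∧
    ∀ (k : Type) [CommRing k] [Algebra K k] (γ : ℕ → k) (Z : List Bool → k), Cyc.RegDS γ Z →
      FV a (-b) v η Z * (β.map (gs γ)).prod =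
        PowerSeries.C (algebraMap K k (η v)) * (α.map (gs γ)).prod

/-! ## Part H: the final form -/

/-- [dua] No hypotheses. `dm₀` and dual numbers. PROOF. `k = DualNumber K` (`ε² = 0`). `Z = 1 + ε ψ`. `one`, `x0`, `x1`: coefficients of `ψ` at `[]` (`lie_ins`), `[false]`, `[true]` are `0`. Shuffle: for `u = []` or `v = []` clear, otherwise `Z u Z v = 0` (`ε² = 0`) and the sum of
`coeff ψ` over the shuffles is `0` since `ψ` is a Lie element (search for an existing lemma: `Bridge.lean`, `FL`, `RT/P/dif.lean`, `RT/P/fri.lean` in the other direction, `Cyc` files, `sh`-lemmas; or by `lie_induction`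
with `Dsh`, `RT.p_shp`). `γ` recursion: in both sides the coefficient of `ε` is `(-1)^n coeff ψ (x₀^n x₁)` (`γ_0 = 1`; the other products have `ε²`). Stuffle: `star γ Z u = [u = []] + ε starCoeff ψ u` (the term `i = 0` is `ε coeff ψ (toX u)` for
`u ≠ []`, a term `0 < i < |u|` is `ε²`, the term `i = |u|` is `γ_n` if `u = 1^n`), and the sum of `starCoeff ψ` over `stuffle u v` (`u, v ≠ []`) is `0` because `p` is primitive (`cc_Delta` or `RT.p_shp` (2)). -/
def S_dua : Prop := ∀ (K : Type) [Field K] [CharZero K] (ψ : QX), ψ ∈ dm0 →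
  Cyc.RegDS (k := DualNumber K)
    (fun n => if n = 0 then 1 else
      (((-1) ^ (n - 1) / (n : K)) * ((coeff ψ (List.replicate (n - 1) false ++ [true]) : ℚ) : K)) •
        DualNumber.eps)
    (fun w => (if w = [] then 1 else 0) + ((coeff ψ w : ℚ) : K) • DualNumber.eps)

/-- [sev] No hypotheses. PROOF. Let `c = charpoly a = (X - x) * q` (`x` is a root), `q(x) ≠ 0` (simple). `(a - x) q(a) = 0` (Cayley-Hamilton), so `range q(a) ⊆ ker (a - x)`, and `range (a - x) ⊆ ker q(a)`. `dim ker (a - x) = 1` (contained in the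
generalised eigenspace of dimension 1, compare `RG/P/smp.lean`). (1) `ker (a - x) = K v`, and `q(a) v = q(x) v` spans it. (2) `ker η ⊇ range (a - x)`, of codimension 1, so they are equal; `ker q(a) ⊇ range (a - x)` and `q(a) ≠ 0`, so
`ker q(a)` is the same. -/
def S_sev : Prop := ∀ (K : Type) [Field K] (V : Type) [AddCommGroup V] [Module K V]
  [FiniteDimensional K V] (a : Module.End K V) (x : K),
  (LinearMap.charpoly a).rootMultiplicity x = 1 →
  (∀ v : V, v ≠ 0 → a v = x • v → EV a v) ∧ ∀ η : V →ₗ[K] K, η ≠ 0 → η ∘ₗ a = x • η → EF a η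

/-- The series `∑_w (f w(A,B) e) Z(w) z^|w|`. -/
noncomputable def FM {K k : Type} [Field K] [CommRing k] [Algebra K k] {n : ℕ}
    (A B : Matrix (Fin n) (Fin n) K) (e f : Fin n → K) (Z : List Bool → k) : PowerSeries k :=
  PowerSeries.mk fun N => BZ.SW N fun w => (f ⬝ᵥ Matrix.mulVec (BZ.ev A B w) e) • Z w

/-- [gma] Hypotheses `S_gin`, `S_dua`. PROOF. `V = Fin n → K`, `a = toLin' A`, `b = toLin' B`, `η v = f ⬝ᵥ v`; `Irr`, `zd (toLin' A) = zd A` as in `RG/P/mat.lean`. `EV a e`: `Matrix.toLin'` commutes with `aeval`. `EF b η`: the range of the transpose of `Q = q(B)` is `K f`, so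
`Q v = 0` iff all rows of `Q` are orthogonal to `v` iff `f ⬝ᵥ v = 0` (`Q v = 0 ↔ ∀ g, g ⬝ᵥ Q v = 0 ↔ ∀ g, (Qᵀ g) ⬝ᵥ v = 0`). `FM A (-B) e f Z = FV a (-b) e η Z`. This gives `α`, `β` and the first formula. Second formula: apply the first to `k = DualNumber K`, the solution of
`S_dua`, and take the coefficient of `ε z^N`: `FM = C(f e) + ε ∑_N z^N ∑_{|w|=N} (f w e) (ψ|w)`, `gs γ t = 1 + ε ∑_{n ≥ 1} t^n g_n z^n`, `g_n = ((-1)^(n-1)/n) (ψ|x₀^(n-1) x₁)`, so `∏ gs γ (β_i) = 1 + ε ∑_n g_n (∑ β_i^n) z^n`, and the coefficient of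
`ε z^N` is `∑_{|w|=N} (f w e)(ψ|w) + (f e) g_N ∑ β_i^N = (f e) g_N ∑ α_i^N` for `N ≥ 1`. -/
def S_gma : Prop := ∀ (K : Type) [Field K] [IsAlgClosed K] [CharZero K] (n : ℕ)
  (A B : Matrix (Fin n) (Fin n) K),
  (∀ U : Submodule K (Fin n → K), (∀ x ∈ U, Matrix.mulVec A x ∈ U) →
    (∀ x ∈ U, Matrix.mulVec B x ∈ U) → U = ⊥ ∨ U = ⊤) →
  n ^ 2 + 2 ≤ zd (K := K) A + zd (K := K) B + zd (K := K) (A + B) →
  ∀ (e f : Fin n → K), e ≠ 0 → f ≠ 0 →
  (∃ q : Polynomial K, LinearMap.range (Matrix.toLin' (Polynomial.aeval A q)) =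
    Submodule.span K {e}) →
  (∃ q : Polynomial K, LinearMap.range (Matrix.toLin' (Polynomial.aeval B q).transpose) =
    Submodule.span K {f}) →
  ∃ α β : List K, α.length = β.length ∧ α.sum = β.sum ∧
    (∀ (k : Type) [CommRing k] [Algebra K k] (γ : ℕ → k) (Z : List Bool → k), Cyc.RegDS γ Z →
      FM A (-B) e f Z * (β.map (gs γ)).prod =
        PowerSeries.C (algebraMap K k (f ⬝ᵥ e)) * (α.map (gs γ)).prod) ∧
    ∀ ψ ∈ dm0, ∀ N : ℕ, 1 ≤ N →
      BZ.SW N (fun w => (f ⬝ᵥ Matrix.mulVec (BZ.ev A (-B) w) e) * ((coeff ψ w : ℚ) : K)) =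
        (f ⬝ᵥ e) * (((-1) ^ (N - 1) / (N : K)) *
          ((coeff ψ (List.replicate (N - 1) false ++ [true]) : ℚ) : K)) *
            ((α.map (· ^ N)).sum - (β.map (· ^ N)).sum)

end Pool.Agent.MP_a57f33_nt.RG
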