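import Pool.Agent.Lib.MP_a57f33_nt.RG.Stm3

/-!
# Project RG (MP_a57f33_nt), fourth part: the Gamma product formula, with duality

The lists `α`, `β` of the Gamma product formula are the same for `Z` and for the dual function `w ↦ Z(τ w)`; so the duality
relations hold on all irreducible rigid systems. Conventions as in `RG/Stm.lean`; import `Pool.Agent.Lib.MP_a57f33_nt.RG.Stm4`.
-/

namespace Pool.Agent.MP_a57f33_nt.RG

open Pool.Agent.MP_a57f33_nt

/-- The two properties of `Z` (twist invariance, transfer rule) from which the Gamma product formula follows. -/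
structure TR (K : Type) {k : Type} [Field K] [CommRing k] [Algebra K k] (γ : ℕ → k)
    (Z : List Bool → k) : Prop where
  one : Z [] = 1
  tws : ∀ (V : Type) [AddCommGroup V] [Module K V] (a b : Module.End K V) (v : V)
    (η : V →ₗ[K] K) (x y : K),
    FV (a + algebraMap K (Module.End K V) x) (b + algebraMap K (Module.End K V) y) v η Z =
      FV a b v η Z
  trf : ∀ (V U0 U1 W : Type) [AddCommGroup V] [Module K V] [AddCommGroup U0] [Module K U0]
    [AddCommGroup U1] [Module K U1] [AddCommGroup W] [Module K W] (L : Lk K V U0 U1 W) (u : U0)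
    (ζ : U1 →ₗ[K] K) (lam nu : K), L.r0 (L.p0 u) = lam • u → ζ ∘ₗ L.r1 ∘ₗ L.p1 = nu • ζ →
    FV L.a0 (-L.a1) (L.p0 u) (ζ ∘ₗ L.r1) Z * (gs γ lam * gs γ (-nu)) =
      FV L.b0 (-L.b1) (L.be (LinearMap.inl K U0 U1 u))
        (ζ ∘ₗ LinearMap.snd K U0 U1 ∘ₗ L.al) Z * (gs γ (lam + L.x) * gs γ (-(nu + L.x)))

/-- [dul] No hypotheses. PROOF. Write `Z' w = Z (dualWord w)`, `a^T = a.dualMap`, `ev_v = Module.Dual.eval K V v`. (1) `FV a b v η Z' = FV b^T a^T η ev_v Z` (on `Module.Dual K V`): `dualWord` is an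
involution on the words of length `N` and `SW N (F ∘ dualWord) = SW N F` (`BZ.cnv_SW_snoc`, induction), and `(ev b^T a^T w) η = η ∘ ev a b (dualWord w)` by induction on `w`. (2) `tws`: `(a + x)^T = a^T + x`. (3) `trf`: THE DUAL LINK
`L' : Lk K (Dual V) (Dual U1) (Dual U0) (Dual W)`: `p0' = - r1^T`, `p1' = - r0^T`, `r0' = p1^T`, `r1' = p0^T`, `al' ω = (ω ∘ be ∘ inr, ω ∘ be ∘ inl)`, `be' (ξ1, ξ0) = - (ξ0 ∘ fst ∘ al + ξ1 ∘ snd ∘ al)`, `x' = - x`. `eq`: both sides map `(ξ1, ξ0)` to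
`- (ξ0 r0 p1 + ξ1 r1 p1 + x ξ1, ξ0 r0 p0 + ξ1 r1 p0 + x ξ0)`. The fields: the dual of a surjective map is injective and the dual of an injective map is surjective (`LinearMap.dualMap_injective_of_surjective`, `LinearMap.dualMap_surjective_of_injective`, over a
field): `hp0', hp1'` from `hr1, hr0`; `hr0', hr1'` from `hp1, hp0`; `hal'` from `hbe`; `hbe'` from `hal`; `hp'` from `hr`; `hr'` from `hp`; `hj0', hj1'` from `hs1, hs0`; `hs0', hs1'` from `hj1, hj0`. `a0' = - a1^T`, `a1' = - a0^T`, `b0' = - b1^T`, `b1' = - b0^T`. Take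
`u' = - ζ`, `ζ' = ev_u`: `p0' u' = ζ r1`, `r0' (p0' u') = ζ r1 p1 = ν ζ = (-ν) u'`, `ζ' ∘ r1' = ev_(p0 u)`, `ζ' ∘ r1' ∘ p1' = (-λ) ζ'`; `be' (inl u') = ζ ∘ snd ∘ al`, `ζ' ∘ snd ∘ al' = ev_(be (inl u))`. The rule `trf` for `Z`, `L'`, `λ' = -ν`, `ν' = -λ`, `x' = -x` is, by (1), the
rule for `Z'`, `L` (with `gs γ λ` and `gs γ (-ν)` exchanged, `mul_comm`). -/
def S_dul : Prop := ∀ (K k : Type) [Field K] [CommRing k] [Algebra K k] (γ : ℕ → k)
  (Z : List Bool → k), TR K γ Z → TR K γ (fun w => Z (dualWord w))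

/-- [gi2] Hypotheses `S_kac`, `S_chs`, `S_evb`, `S_efb`. PROOF. Strong induction on `dim V` (for all `V`, `a`, `b`, `v`, `η`). `dim V ≤ 1`: `a = x`, `b = y` are scalars, by
`TR.tws` (`a = 0 + x`, `-b = 0 + (-y)`) the series is `FV 0 0 v η Z = C (η v)` (`ev 0 0 w = 0` for `w ≠ []`, `Z [] = 1`); take `α = β = []`. `dim V ≥ 2`: `q`, `q'` from `EV a v`, `EF b η` (`range (q'(b))` has dimension
`1` since its kernel is the kernel of `η ≠ 0`); `x0`, `x1` from `S_chs`; `L` from `S_kac`; `aeval (a + x0) (q.comp (X - C x0)) = aeval a q`, and `q.comp (X - C x0)` has the value `q(-x0) = 0` at `0`: `S_evb`, `S_efb` give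
`u`, `λ`, `ζ`, `ν`. Induction for `(L.b0, L.b1)`, `v' = be (inl u)`, `η' = ζ snd al` gives `α`, `β`; `η' v' = ζ (snd (al (be (inl u)))) = ζ (r1 p0 u) = η v` (`Lk.eq`; `snd (x • (u, 0)) = 0`). By `TR.tws` `FV a (-b) v η Z = FV L.a0 (-L.a1) v η Z`
and by `TR.trf`: the lists `[λ + x, -(ν + x)] ++ α` and `[λ, -ν] ++ β` do. -/
def S_gi2 : Prop := ∀ (K : Type) [Field K] [IsAlgClosed K] (V : Type) [AddCommGroup V]
  [Module K V] [FiniteDimensional K V] (a b : Module.End K V), Irr a b →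
  Module.finrank K V ^ 2 + 2 ≤ zd (K := K) a + zd (K := K) b + zd (K := K) (a + b) →
  ∀ (v : V) (η : V →ₗ[K] K), EV a v → EF b η →
  ∃ α β : List K, α.length = β.length ∧ α.sum = β.sum ∧
    ∀ (k : Type) [CommRing k] [Algebra K k] (γ : ℕ → k) (Z : List Bool → k), TR K γ Z →
      FV a (-b) v η Z * (β.map (gs γ)).prod =
        PowerSeries.C (algebraMap K k (η v)) * (α.map (gs γ)).prod

/-- `e` spans the image of a polynomial in `A`. -/
def Marked {K : Type} [Field K] {n : ℕ} (A : Matrix (Fin n) (Fin n) K) (e : Fin n → K) : Prop :=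
  e ≠ 0 ∧ ∃ q : Polynomial K, LinearMap.range (Matrix.toLin' (Polynomial.aeval A q)) =
    Submodule.span K {e}

/-- [mkd] Hypothesis `S_sev`. PROOF. `S_sev` for `Matrix.toLin' A` (`Matrix.charpoly_toLin'`; `Matrix.toLin'` commutes with `aeval`: `Matrix.toLinAlgEquiv'`). -/
def S_mkd : Prop := ∀ (K : Type) [Field K] (n : ℕ) (A : Matrix (Fin n) (Fin n) K) (e : Fin n → K)
  (x : K), e ≠ 0 → Matrix.mulVec A e = x • e → A.charpoly.rootMultiplicity x = 1 → Marked A e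

/-- [gm3] Hypothesis `S_gi2`. PROOF. `V = Fin n → K`, `a = toLin' A`, `b = toLin' B`, `η v = f ⬝ᵥ v`; `Irr`, `zd (toLin' A) = zd A` by `Matrix.toLinAlgEquiv'` (as in
`RG/P/mat.lean` / `mxt.lean`). `EV a e`: `Matrix.toLin'` commutes with `aeval`. `EF b η`: `aeval Bᵀ q = Qᵀ` for `Q = aeval B q`, its range is `K f`, so
`Q v = 0` iff all rows of `Q` are orthogonal to `v` iff `f ⬝ᵥ v = 0` (`Q v = 0 ↔ ∀ g, g ⬝ᵥ Q v = 0 ↔ ∀ g, (Qᵀ g) ⬝ᵥ v = 0`). `FM A (-B) e f Z = FV a (-b) e η Z`. -/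
def S_gm3 : Prop := ∀ (K : Type) [Field K] [IsAlgClosed K] (n : ℕ)
  (A B : Matrix (Fin n) (Fin n) K),
  (∀ U : Submodule K (Fin n → K), (∀ x ∈ U, Matrix.mulVec A x ∈ U) →
    (∀ x ∈ U, Matrix.mulVec B x ∈ U) → U = ⊥ ∨ U = ⊤) →
  n ^ 2 + 2 ≤ zd (K := K) A + zd (K := K) B + zd (K := K) (A + B) →
  ∀ (e f : Fin n → K), Marked A e → Marked B.transpose f →
  ∃ α β : List K, α.length = β.length ∧ α.sum = β.sum ∧
    ∀ (k : Type) [CommRing k] [Algebra K k] (γ : ℕ → k) (Z : List Bool → k), TR K γ Z →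
      FM A (-B) e f Z * (β.map (gs γ)).prod =
        PowerSeries.C (algebraMap K k (f ⬝ᵥ e)) * (α.map (gs γ)).prod

/-- [dmf] Hypothesis `S_dua`. PROOF. Apply the hypothesis to the solution of `S_dua` and take the coefficient of `ε z^N`: `FM = C(f e) + ε ∑_N z^N ∑_{|w|=N} (f w e) (ψ|w)`, `gs γ t = 1 + ε ∑_{n ≥ 1} t^n g_n z^n`, `g_n = ((-1)^(n-1)/n) (ψ|x₀^(n-1) x₁)`,
so `∏ gs γ (β_i) = 1 + ε ∑_n g_n (∑ β_i^n) z^n` (induction on the list), and the coefficient of `ε z^N` is `∑_{|w|=N} (f w e)(ψ|w) + (f e) g_N ∑ β_i^N = (f e) g_N ∑ α_i^N` for `N ≥ 1`. (`coeff ψ [] = 0`.) -/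
def S_dmf : Prop := ∀ (K : Type) [Field K] [CharZero K] (n : ℕ) (A B : Matrix (Fin n) (Fin n) K)
  (e f : Fin n → K) (α β : List K),
  (∀ (γ : ℕ → DualNumber K) (Z : List Bool → DualNumber K), Cyc.RegDS γ Z →
    FM A B e f Z * (β.map (gs γ)).prod =
      PowerSeries.C (algebraMap K (DualNumber K) (f ⬝ᵥ e)) * (α.map (gs γ)).prod) →
  ∀ ψ ∈ dm0, ∀ N : ℕ, 1 ≤ N →
    BZ.SW N (fun w => (f ⬝ᵥ Matrix.mulVec (BZ.ev A B w) e) * ((coeff ψ w : ℚ) : K)) =
      (f ⬝ᵥ e) * (((-1) ^ (N - 1) / (N : K)) *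
        ((coeff ψ (List.replicate (N - 1) false ++ [true]) : ℚ) : K)) *
          ((α.map (· ^ N)).sum - (β.map (· ^ N)).sum)

end Pool.Agent.MP_a57f33_nt.RG
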